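import Pool.Agent.Lib.MP_d47134_co.Asy.Rep

/-!
# Packing edge sets which meet every odd cut
-/

set_option autoImplicit false
set_option linter.unusedSectionVars false

namespace Pool.Agent.Lib.MP_d47134_co.Asy

open Finset Submodule

variable {V E : Type} [Fintype V] [DecidableEq V] [Fintype E] [DecidableEq E]

/-- The edges inside `X`. -/
def ins (a b : E → V) (X : Finset V) : Finset E := univ.filter fun e => a e ∈ X ∧ b e ∈ X

lemma mem_ins {a b : E → V} {X : Finset V} {e : E} : e ∈ ins a b X ↔ a e ∈ X ∧ b e ∈ X := by
  simp [ins]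

/-- Tree packing inside a set `X` all of whose proper subsets have large cuts. -/
theorem treesX {a b : E → V} {h r : ℕ} (hr : 2 * h ≤ r) {X : Finset V} (hX : X.Nonempty)
    (hd : (cut a b univ X).card ≤ r)
    (hc : ∀ Y : Finset V, Y.Nonempty → Y ⊂ X → r ≤ (cut a b univ Y).card) :
    ∃ F : Fin h → Finset E, (∀ i j, i ≠ j → Disjoint (F i) (F j)) ∧
      (∀ i, F i ⊆ ins a b X) ∧
      (∀ i (Y : Finset V), (X ∩ Y).Nonempty → ¬ X ⊆ Y → (cut a b (F i) Y).Nonempty) := by
  classical
  obtain ⟨x0, hx0⟩ := hX
  let v : E → (V → ZMod 2) := fun e => if e ∈ ins a b X then bd a b e else 0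
  have hvX : ∀ {e}, e ∈ ins a b X → v e = bd a b e := fun h => if_pos h
  have hv0 : ∀ {e}, e ∉ ins a b X → v e = 0 := fun h => if_neg h
  have H : ∀ R : Finset E, h * Module.finrank (ZMod 2) (span (ZMod 2) (Set.range v)) ≤
      h * Module.finrank (ZMod 2) (span (ZMod 2) (v '' (R : Set E))) + (univ \ R).card := by
    intro R
    let U : Submodule (ZMod 2) (V → ZMod 2) := span (ZMod 2) (v '' (R : Set E))
    change _ ≤ h * Module.finrank (ZMod 2) U + _
    let Q := Quotient (st U)
    have : Fintype Q := Fintype.ofFinite Q
    let mk : V → Q := Quotient.mk (st U)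
    let QX : Finset Q := X.image mk
    -- rank
    let P : Finset (V → ZMod 2) := (QX.erase (mk x0)).image fun q => pp (mk x0).out q.out
    have hPc : P.card + 1 ≤ QX.card := by
      have h1 : (QX.erase (mk x0)).card + 1 = QX.card :=
        card_erase_add_one (mem_image_of_mem _ hx0)
      have h2 : P.card ≤ (QX.erase (mk x0)).card := card_image_le
      omega
    have hrep : ∀ u : V, pp u (mk u).out ∈ U := by
      intro u
      have h1 : (st U).r (mk u).out u := Quotient.mk_out (s := st U) u
      have h2 : pp (mk u).out u ∈ U := h1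
      rwa [pp_comm] at h2
    have hcen : ∀ u ∈ X, pp (mk x0).out (mk u).out ∈ U ⊔ span (ZMod 2) (P : Set (V → ZMod 2)) := by
      intro u hu
      by_cases h1 : mk u = mk x0
      · rw [h1, pp_self]; exact zero_mem _
      · refine mem_sup_right (subset_span ?_)
        rw [Finset.mem_coe]
        exact mem_image.2 ⟨mk u, mem_erase.2 ⟨h1, mem_image_of_mem _ hu⟩, rfl⟩
    have hle : span (ZMod 2) (Set.range v) ≤ U ⊔ span (ZMod 2) (P : Set (V → ZMod 2)) := by
      rw [span_le]
      rintro _ ⟨e, rfl⟩
      by_cases he : e ∈ ins a b X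
      · rw [hvX he, bd_eq]
        obtain ⟨h1, h2⟩ := mem_ins.1 he
        rw [← pp_add (a e) (mk (a e)).out (b e), ← pp_add (mk (a e)).out (mk x0).out (b e),
          ← pp_add (mk x0).out (mk (b e)).out (b e)]
        refine add_mem (mem_sup_left (hrep _)) (add_mem ?_ (add_mem (hcen _ h2)
          (mem_sup_left ?_)))
        · rw [pp_comm]; exact hcen _ h1
        · rw [pp_comm]; exact hrep _
      · rw [hv0 he]; exact zero_mem _
    have hrk : Module.finrank (ZMod 2) (span (ZMod 2) (Set.range v)) ≤
        Module.finrank (ZMod 2) U + P.card := by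
      have h1 := Submodule.finrank_mono hle
      have h2 := Submodule.finrank_add_le_finrank_add_finrank U
        (span (ZMod 2) (P : Set (V → ZMod 2)))
      have h3 : Module.finrank (ZMod 2) (span (ZMod 2) (P : Set (V → ZMod 2))) ≤ P.card :=
        finrank_span_finset_le_card P
      omega
    -- counting
    have hcount : h * P.card ≤ (univ \ R).card := by
      rcases Nat.lt_or_ge QX.card 2 with hQ | hQ
      · have : P.card = 0 := by omega
        rw [this]; simp
      · let A : Q → Finset V := fun q => X.filter fun u => mk u = q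
        have hA : ∀ q ∈ QX, r ≤ (cut a b univ (A q)).card := by
          intro q hq
          obtain ⟨u, hu, huq⟩ := mem_image.1 hq
          refine hc _ ⟨u, mem_filter.2 ⟨hu, huq⟩⟩ ?_
          rw [Finset.ssubset_iff_of_subset (filter_subset _ _)]
          obtain ⟨q', hq', hne⟩ : ∃ q' ∈ QX, q' ≠ q := by
            have h4 : 1 < QX.card := by omega
            exact exists_mem_ne h4 q
          obtain ⟨u', hu', huq'⟩ := mem_image.1 hq'
          refine ⟨u', hu', fun h5 => hne ?_⟩
          rw [← huq']
          exact (mem_filter.1 h5).2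
        have hsum : ∑ q ∈ QX, (cut a b univ (A q)).card ≤
            2 * (univ \ R).card + (cut a b univ X).card := by
          have h4 : ∀ q, (cut a b univ (A q)).card =
              ∑ e, if ¬ (a e ∈ A q ↔ b e ∈ A q) then 1 else 0 := by
            intro q; rw [cut, card_filter]
          have h5 : 2 * (univ \ R).card + (cut a b univ X).card =
              ∑ e, ((if e ∈ univ \ R then 2 else 0) +
                if ¬ (a e ∈ X ↔ b e ∈ X) then 1 else 0) := by
            rw [sum_add_distrib, cut, card_filter, Finset.sum_ite_mem, univ_inter, sum_const,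
              smul_eq_mul, mul_comm]
          rw [sum_congr rfl fun q _ => h4 q, sum_comm, h5]
          refine sum_le_sum fun e _ => ?_
          rw [← card_filter]
          have hsub : (QX.filter fun q => ¬ (a e ∈ A q ↔ b e ∈ A q)) ⊆
              (if a e ∈ X then {mk (a e)} else ∅) ∪ (if b e ∈ X then {mk (b e)} else ∅) := by
            intro q hq
            have h6 := (mem_filter.1 hq).2
            simp only [A, mem_filter] at h6
            rw [mem_union]
            by_contra h7
            push Not at h7
            apply h6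
            constructor
            · rintro ⟨h8, h9⟩
              exfalso
              apply h7.1
              rw [if_pos h8, mem_singleton, h9]
            · rintro ⟨h8, h9⟩
              exfalso
              apply h7.2
              rw [if_pos h8, mem_singleton, h9]
          by_cases ha : a e ∈ X <;> by_cases hb : b e ∈ X
          · by_cases hR : e ∈ R
            · -- the ends are equivalent
              have h7 : bd a b e ∈ U := by
                rw [← hvX (mem_ins.2 ⟨ha, hb⟩)]
                exact subset_span ⟨e, Finset.mem_coe.2 hR, rfl⟩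
              have h8 : mk (a e) = mk (b e) := Quotient.sound (s := st U) h7
              have h9 : (QX.filter fun q => ¬ (a e ∈ A q ↔ b e ∈ A q)) = ∅ := by
                apply filter_eq_empty_iff.2
                intro q _
                simp only [A, mem_filter, ha, hb, true_and, h8, not_true, not_false_eq_true]
              rw [h9]; simp
            · calc _ ≤ _ := card_le_card hsub
                _ ≤ 2 := by rw [if_pos ha, if_pos hb]; exact (card_union_le _ _).trans (by simp)
                _ ≤ _ := by simp [hR]
          · calc _ ≤ _ := card_le_card hsub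
              _ ≤ 1 := by rw [if_pos ha, if_neg hb]; simp
              _ ≤ _ := by simp [ha, hb]
          · calc _ ≤ _ := card_le_card hsub
              _ ≤ 1 := by rw [if_neg ha, if_pos hb]; simp
              _ ≤ _ := by simp [ha, hb]
          · calc _ ≤ _ := card_le_card hsub
              _ ≤ 0 := by rw [if_neg ha, if_neg hb]; simp
              _ ≤ _ := Nat.zero_le _
        have h5 : r * QX.card ≤ 2 * (univ \ R).card + r := by
          refine le_trans ?_ (hsum.trans (Nat.add_le_add_left hd _))
          rw [mul_comm, ← smul_eq_mul, ← sum_const]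
          exact sum_le_sum hA
        have h6 : r * (P.card + 1) ≤ r * QX.card := Nat.mul_le_mul_left _ hPc
        have h7 : 2 * h * P.card ≤ r * P.card := Nat.mul_le_mul_right _ hr
        rw [mul_add, mul_one] at h6
        rw [mul_assoc] at h7
        omega
    calc h * Module.finrank (ZMod 2) (span (ZMod 2) (Set.range v)) ≤
        h * (Module.finrank (ZMod 2) U + P.card) := Nat.mul_le_mul_left h hrk
      _ = h * Module.finrank (ZMod 2) U + h * P.card := by ring
      _ ≤ _ := Nat.add_le_add_left hcount _
  obtain ⟨F, h1, h2, h3⟩ := pack (K := ZMod 2) h v H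
  have hFX : ∀ i, F i ⊆ ins a b X := by
    intro i e he
    by_contra h4
    have h5 := LinearIndepOn.ne_zero (h2 i) (Finset.mem_coe.2 he)
    exact h5 (hv0 h4)
  refine ⟨F, h1, hFX, fun i Y hY1 hY2 => ?_⟩
  -- some edge inside `X` crosses `Y`
  by_contra hcon
  rw [not_nonempty_iff_eq_empty] at hcon
  have h4 : span (ZMod 2) (Set.range v) ≤ LinearMap.ker (fX Y) := by
    rw [← h3 i, span_le]
    rintro _ ⟨e, he, rfl⟩
    rw [SetLike.mem_coe, LinearMap.mem_ker, hvX (hFX i he)]
    by_contra h5
    have : e ∈ cut a b (F i) Y := mem_cut.2 ⟨Finset.mem_coe.1 he, fX_bd_ne.1 h5⟩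
    rw [hcon] at this
    exact notMem_empty _ this
  have h5 : ∀ e ∈ ins a b X, (a e ∈ Y ↔ b e ∈ Y) := by
    intro e he
    have h6 : fX Y (v e) = 0 := by
      have := h4 (subset_span ⟨e, rfl⟩)
      rwa [LinearMap.mem_ker] at this
    rw [hvX he] at h6
    by_contra h7
    exact fX_bd_ne.2 h7 h6
  -- the two parts of `X`
  have h6 : (X \ Y).Nonempty := by
    rw [Finset.sdiff_nonempty]; exact hY2
  have h7 : X ∩ Y ⊂ X := by
    rw [Finset.ssubset_iff_of_subset inter_subset_left]
    obtain ⟨u, hu⟩ := h6
    exact ⟨u, (mem_sdiff.1 hu).1, fun h => (mem_sdiff.1 hu).2 (mem_inter.1 h).2⟩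
  have h8 : X \ Y ⊂ X := by
    rw [Finset.ssubset_iff_of_subset sdiff_subset]
    obtain ⟨u, hu⟩ := hY1
    exact ⟨u, (mem_inter.1 hu).1, fun h => (mem_sdiff.1 h).2 (mem_inter.1 hu).2⟩
  have h9 := hc _ hY1 h7
  have h10 := hc _ h6 h8
  have h11 : (cut a b univ (X ∩ Y)).card + (cut a b univ (X \ Y)).card ≤
      (cut a b univ X).card := by
    rw [← card_union_of_disjoint]
    · apply card_le_card
      intro e he
      rw [mem_union, mem_cut, mem_cut] at he
      refine mem_cut.2 ⟨mem_univ _, fun h12 => ?_⟩
      by_cases h13 : a e ∈ X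
      · have h14 := h5 e (mem_ins.2 ⟨h13, h12.1 h13⟩)
        have h15 := h12.1 h13
        simp only [mem_inter, mem_sdiff, h13, h15, true_and] at he
        tauto
      · have h15 : b e ∉ X := fun h => h13 (h12.2 h)
        simp only [mem_inter, mem_sdiff, h13, h15, false_and] at he
        tauto
    · rw [Finset.disjoint_left]
      intro e he1 he2
      rw [mem_cut] at he1 he2
      simp only [mem_inter, mem_sdiff, mem_univ, true_and] at he1 he2
      have h14 : a e ∈ X → b e ∈ X → (a e ∈ Y ↔ b e ∈ Y) :=
        fun h h' => h5 e (mem_ins.2 ⟨h, h'⟩)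
      tauto
  have : h = 0 := by omega
  subst this
  exact i.elim0

end Pool.Agent.Lib.MP_d47134_co.Asy
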