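import Pool.Agent.Lib.MP_d47134_co.Asy.Conn

/-!
# Packing edge sets which meet every odd cut, the induction
-/

set_option autoImplicit false
set_option linter.unusedSectionVars false

namespace Pool.Agent.Lib.MP_d47134_co.Asy

open Finset Submodule

variable {V E : Type} [Fintype V] [DecidableEq V] [Fintype E] [DecidableEq E]

/-- The conclusion: `h` disjoint edge sets meeting every odd cut. -/
def Pk (h : ℕ) (a b : E → V) : Prop :=
  ∃ F : Fin h → Finset E, (∀ i j, i ≠ j → Disjoint (F i) (F j)) ∧
    (∀ i (X : Finset V), Odd (cut a b univ X).card → (cut a b (F i) X).Nonempty)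

/-- Lifting a packing after a splitting. -/
lemma Pk.of_split {h : ℕ} {a b : E → V} {e f : E} {v x y : V} (hef : e ≠ f)
    (he : s(a e, b e) = s(v, x)) (hf : s(a f, b f) = s(v, y))
    (hP : Pk h (sa a e f v x) (sb b e f v y)) : Pk h a b := by
  classical
  obtain ⟨F, h1, h2⟩ := hP
  let G : Fin h → Finset E := fun i => if e ∈ F i then insert f (F i) else (F i).erase f
  have hGf : ∀ i, f ∈ G i ↔ e ∈ F i := by
    intro i
    by_cases h3 : e ∈ F i
    · simp [G, h3]
    · simp [G, h3]
  have hGo : ∀ i g, g ≠ f → (g ∈ G i ↔ g ∈ F i) := by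
    intro i g hg
    by_cases h3 : e ∈ F i
    · simp [G, h3, hg]
    · simp [G, h3, hg]
  refine ⟨G, fun i j hij => ?_, fun i X hX => ?_⟩
  · rw [Finset.disjoint_left]
    intro g hg hg'
    by_cases hgf : g = f
    · subst hgf
      exact Finset.disjoint_left.1 (h1 i j hij) ((hGf i).1 hg) ((hGf j).1 hg')
    · exact Finset.disjoint_left.1 (h1 i j hij) ((hGo i g hgf).1 hg) ((hGo j g hgf).1 hg')
  · have hX' : Odd (cut (sa a e f v x) (sb b e f v y) univ X).card := by
      rw [cast_odd] at hX ⊢
      rw [← par_univ hef he hf]; exact hX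
    obtain ⟨g, hg⟩ := h2 i X hX'
    rw [mem_cut] at hg
    by_cases hgf : g = f
    · subst hgf
      rw [sa_f, sb_f] at hg
      exact absurd Iff.rfl hg.2
    · by_cases hge : g = e
      · subst hge
        rw [sa_e hef, sb_e hef] at hg
        by_cases h3 : (v ∈ X ↔ x ∈ X)
        · refine ⟨f, mem_cut.2 ⟨(hGf i).2 hg.1, ?_⟩⟩
          rw [ends_iff hf]
          exact fun h4 => hg.2 (h3.symm.trans h4)
        · refine ⟨g, mem_cut.2 ⟨(hGo i g hef).2 hg.1, ?_⟩⟩
          rw [ends_iff he]
          exact h3
      · rw [sa_o hge hgf, sb_o hge hgf] at hg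
        exact ⟨g, mem_cut.2 ⟨(hGo i g hgf).2 hg.1, hg.2⟩⟩

/-- The contraction of `X` to `x0`. -/
def ct (X : Finset V) (x0 : V) (u : V) : V := if u ∈ X then x0 else u

/-- The preimage of `Y` under the contraction. -/
def pre (X : Finset V) (x0 : V) (Y : Finset V) : Finset V := univ.filter fun u => ct X x0 u ∈ Y

lemma cut_ct (a b : E → V) (X : Finset V) (x0 : V) (M : Finset E) (Y : Finset V) :
    cut (fun e => ct X x0 (a e)) (fun e => ct X x0 (b e)) M Y = cut a b M (pre X x0 Y) := by
  ext e
  simp only [mem_cut, pre, mem_filter, mem_univ, true_and]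

lemma pre_eq {X Y : Finset V} {x0 : V} (hx0 : x0 ∈ X) (h : X ∩ Y = ∅ ∨ X ⊆ Y) :
    pre X x0 Y = Y := by
  ext u
  simp only [pre, ct, mem_filter, mem_univ, true_and]
  by_cases hu : u ∈ X
  · rw [if_pos hu]
    rcases h with h | h
    · have h1 : x0 ∉ Y := fun h1 => notMem_empty x0 (h ▸ mem_inter.2 ⟨hx0, h1⟩)
      have h2 : u ∉ Y := fun h1 => notMem_empty u (h ▸ mem_inter.2 ⟨hu, h1⟩)
      exact iff_of_false h1 h2
    · exact iff_of_true (h hx0) (h hu)
  · rw [if_neg hu]

/-- **Packing of connectors**: if every odd cut has at least `r` edges, `r` odd, then there are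
`(r - 1) / 2` disjoint edge sets which meet every odd cut. -/
theorem conn_pack {r h : ℕ} (hr : Odd r) (hr3 : 3 ≤ r) (hh : 2 * h ≤ r) (n : ℕ) :
    ∀ (a b : E → V), OC r a b → (univ.filter fun e => a e ≠ b e).card < n → Pk h a b := by
  classical
  rcases Nat.eq_zero_or_pos h with h0 | hpos
  · subst h0
    exact fun a b _ _ => ⟨fun i => i.elim0, fun i => i.elim0, fun i => i.elim0⟩
  induction n with
  | zero => intro a b _ h; omega
  | succ n IH =>
    intro a b hoc hn
    by_cases hd : ∃ v, (cut a b univ {v}).card ≠ 0 ∧ Even (cut a b univ {v}).card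
    · -- a vertex of positive even degree: split
      obtain ⟨v, h0, h1⟩ := hd
      have h2 : (cut a b univ {v}).card ≠ r := fun h3 =>
        (Nat.not_even_iff_odd.2 hr) (h3 ▸ h1)
      obtain ⟨e, f, x, y, hef, he, hf, hvx, hvy, hZ⟩ := exists_pair hr hr3 hoc h0 h2
      have hnle : ∀ {g u z}, s(a g, b g) = s(u, z) → u ≠ z → a g ≠ b g := by
        intro g u z h1 h2 h3
        rw [h3, Sym2.eq_iff] at h1
        rcases h1 with ⟨h4, h5⟩ | ⟨h4, h5⟩
        · exact h2 (h4.symm.trans h5)
        · exact h2 (h5.symm.trans h4)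
      refine Pk.of_split hef he hf (IH _ _ (hoc.split hr hef he hf hZ) ?_)
      refine lt_of_lt_of_le (card_lt_card ?_) (Nat.lt_succ_iff.1 hn)
      rw [Finset.ssubset_iff_of_subset]
      · refine ⟨f, ?_, ?_⟩
        · simp only [mem_filter, mem_univ, true_and]; exact hnle hf hvy
        · simp only [mem_filter, mem_univ, true_and, sa_f, sb_f, ne_eq, not_true,
            not_false_eq_true]
      · intro g hg
        simp only [mem_filter, mem_univ, true_and] at hg ⊢
        by_cases h2 : g = f
        · subst h2; exact hnle hf hvy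
        · by_cases h3 : g = e
          · subst h3; exact hnle he hvx
          · rwa [sa_o h3 h2, sb_o h3 h2] at hg
    · push Not at hd
      -- all degrees are odd or zero
      let S : Finset V := univ.filter fun v => (cut a b univ {v}).card ≠ 0
      have hS : ∀ v, v ∈ S ↔ (cut a b univ {v}).card ≠ 0 := fun v => by simp [S]
      have hends : ∀ e, a e ≠ b e → a e ∈ S ∧ b e ∈ S := by
        intro e he
        constructor
        · rw [hS, Ne, card_eq_zero]
          intro h1
          have : e ∈ cut a b univ {a e} := mem_cut.2 ⟨mem_univ _, by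
            simp only [mem_singleton, true_iff]; exact fun h => he h.symm⟩
          rw [h1] at this; exact notMem_empty _ this
        · rw [hS, Ne, card_eq_zero]
          intro h1
          have : e ∈ cut a b univ {b e} := mem_cut.2 ⟨mem_univ _, by
            simp only [mem_singleton, iff_true]; exact he⟩
          rw [h1] at this; exact notMem_empty _ this
      by_cases hSe : S.Nonempty
      swap
      · -- no edges
        refine ⟨fun _ => ∅, fun _ _ _ => disjoint_empty_left _, fun i X hX => ?_⟩
        exfalso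
        have : cut a b univ X = ∅ := by
          apply eq_empty_of_forall_notMem
          intro e he
          rw [mem_cut] at he
          have h1 : a e ≠ b e := fun h => he.2 (by rw [h])
          exact hSe ⟨_, (hends e h1).1⟩
        rw [this] at hX
        simp at hX
      -- a minimal even set with a small cut
      let G : Finset V → Prop := fun X => X ⊆ S ∧ X.Nonempty ∧
        Even (cut a b univ X).card ∧ (cut a b univ X).card < r
      have hG : (univ.filter fun X => G X).Nonempty := by
        refine ⟨S, ?_⟩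
        simp only [mem_filter, mem_univ, true_and]
        have : cut a b univ S = ∅ := by
          apply eq_empty_of_forall_notMem
          intro e he
          rw [mem_cut] at he
          have h1 : a e ≠ b e := fun h => he.2 (by rw [h])
          exact he.2 ⟨fun _ => (hends e h1).2, fun _ => (hends e h1).1⟩
        exact ⟨Subset.refl _, hSe, by rw [this]; simp, by rw [this]; simp; omega⟩
      obtain ⟨X, hXG, hmin⟩ := exists_min_image _ (fun X => X.card) hG
      simp only [mem_filter, mem_univ, true_and] at hXG hmin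
      obtain ⟨hXS, hXn, hXe, hXr⟩ := hXG
      have hprop : ∀ Y : Finset V, Y.Nonempty → Y ⊂ X → r ≤ (cut a b univ Y).card := by
        intro Y hY hYX
        by_contra h1
        push Not at h1
        rcases Nat.even_or_odd (cut a b univ Y).card with h2 | h2
        · have h3 := hmin Y ⟨(subset_of_ssubset hYX).trans hXS, hY, h2, h1⟩
          have h4 := card_lt_card hYX
          omega
        · have := hoc Y h2
          omega
      obtain ⟨F, hF1, hF2, hF3⟩ := treesX hh hXn hXr.le hprop
      -- `X` has two vertices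
      obtain ⟨x0, hx0⟩ := hXn
      obtain ⟨x1, hx1, hx10⟩ : ∃ x1 ∈ X, x1 ≠ x0 := by
        by_contra hcon
        push Not at hcon
        have h1 : X = {x0} := by
          ext u
          rw [mem_singleton]
          exact ⟨fun h => hcon u h, fun h => h ▸ hx0⟩
        rw [h1] at hXe
        exact hd x0 ((hS x0).1 (hXS hx0)) hXe
      obtain ⟨g0, hg0⟩ : (cut a b (F ⟨0, hpos⟩) {x1}).Nonempty := by
        refine hF3 _ _ ⟨x1, mem_inter.2 ⟨hx1, mem_singleton_self _⟩⟩ fun h1 => ?_
        exact hx10 (mem_singleton.1 (h1 hx0)).symm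
      rw [mem_cut] at hg0
      have hg0X := mem_ins.1 (hF2 _ hg0.1)
      have hg0ne : a g0 ≠ b g0 := fun h => hg0.2 (by rw [h])
      obtain ⟨F', hF1', hF2'⟩ := IH (fun e => ct X x0 (a e)) (fun e => ct X x0 (b e))
        (by
          intro Y hY
          rw [cut_ct] at hY ⊢
          exact hoc _ hY)
        (by
          refine lt_of_lt_of_le (card_lt_card ?_) (Nat.lt_succ_iff.1 hn)
          rw [Finset.ssubset_iff_of_subset]
          · refine ⟨g0, by simp [hg0ne], ?_⟩
            simp [ct, hg0X.1, hg0X.2]
          · intro g hg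
            simp only [mem_filter, mem_univ, true_and] at hg ⊢
            exact fun h => hg (by rw [h]))
      refine ⟨fun i => (F' i \ ins a b X) ∪ F i, fun i j hij => ?_, fun i Y hY => ?_⟩
      · rw [Finset.disjoint_left]
        intro g hg hg'
        rw [mem_union, mem_sdiff] at hg hg'
        rcases hg with hg | hg <;> rcases hg' with hg' | hg'
        · exact Finset.disjoint_left.1 (hF1' i j hij) hg.1 hg'.1
        · exact hg.2 (hF2 j hg')
        · exact hg'.2 (hF2 i hg)
        · exact Finset.disjoint_left.1 (hF1 i j hij) hg hg'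
      · by_cases h1 : X ∩ Y = ∅ ∨ X ⊆ Y
        · have h2 : Odd (cut (fun e => ct X x0 (a e)) (fun e => ct X x0 (b e)) univ Y).card := by
            rw [cut_ct, pre_eq hx0 h1]; exact hY
          obtain ⟨g, hg⟩ := hF2' i Y h2
          rw [cut_ct, pre_eq hx0 h1, mem_cut] at hg
          refine ⟨g, mem_cut.2 ⟨mem_union_left _ (mem_sdiff.2 ⟨hg.1, fun h3 => ?_⟩), hg.2⟩⟩
          obtain ⟨h4, h5⟩ := mem_ins.1 h3
          apply hg.2
          rcases h1 with h1 | h1
          · exact iff_of_false (fun h6 => notMem_empty (a g) (h1 ▸ mem_inter.2 ⟨h4, h6⟩))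
              (fun h6 => notMem_empty (b g) (h1 ▸ mem_inter.2 ⟨h5, h6⟩))
          · exact iff_of_true (h1 h4) (h1 h5)
        · push Not at h1
          obtain ⟨g, hg⟩ := hF3 i Y h1.1 h1.2
          rw [mem_cut] at hg
          exact ⟨g, mem_cut.2 ⟨mem_union_right _ hg.1, hg.2⟩⟩

end Pool.Agent.Lib.MP_d47134_co.Asy
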