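import Pool.Agent.Lib.MP_d47134_co.Asy.Fin

/-!
# Translation of the two main theorems to multigraphs given by `ends : E → Sym2 V`
-/

set_option autoImplicit false
set_option linter.unusedSectionVars false

namespace Pool.Agent.Lib.MP_d47134_co.Asy

open Finset

variable {V E : Type} [Fintype V] [DecidableEq V] [Fintype E] [DecidableEq E]

lemma conv_nb {ends : E → Sym2 V} {a b : E → V} (hends : ∀ e, ends e = s(a e, b e)) (v : V) :
    Nat.card {u : V // ∃ e, ends e = s(v, u)} = (nb a b univ v).card := by
  classical
  rw [Nat.card_eq_fintype_card, Fintype.card_subtype]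
  congr 1
  ext u
  simp only [mem_filter, mem_univ, true_and, mem_nb, hends, Sym2.eq_iff]

lemma conv_few {ends : E → Sym2 V} {a b : E → V} (hends : ∀ e, ends e = s(a e, b e)) (ν : ℕ) :
    Nat.card {v : V // Nat.card {u : V // ∃ e, ends e = s(v, u)} < ν} = (few a b ν).card := by
  classical
  rw [Nat.card_eq_fintype_card, Fintype.card_subtype]
  congr 1
  ext v
  simp only [mem_filter, mem_univ, true_and, few, conv_nb hends]

lemma conv_odv {ends : E → Sym2 V} {a b : E → V} (hends : ∀ e, ends e = s(a e, b e))
    (hne : ∀ e, a e ≠ b e) :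
    Nat.card {v : V // Odd (Nat.card {e : E // v ∈ ends e})} = (odv a b).card := by
  classical
  rw [Nat.card_eq_fintype_card, Fintype.card_subtype]
  congr 1
  ext v
  simp only [mem_filter, mem_univ, true_and, odv, conv_deg' hends hne]

end Pool.Agent.Lib.MP_d47134_co.Asy
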