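import Pool.Agent.Lib.MP_d47134_co.Asy.Rep
import Pool.Agent.Lib.MP_d47134_co.Conv

/-!
# Asymptotically short two-even covers of graphs whose vertices have many distinct neighbours
-/

set_option autoImplicit false
set_option linter.unusedSectionVars false

namespace Pool.Agent.Lib.MP_d47134_co.Asy

open Finset Submodule

variable {V E : Type} [Fintype V] [DecidableEq V] [Fintype E] [DecidableEq E]

/-- The distinct neighbours of `v` by edges of `M`. -/
def nb (a b : E → V) (M : Finset E) (v : V) : Finset V :=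
  univ.filter fun u => ∃ e ∈ M, (a e = v ∧ b e = u) ∨ (a e = u ∧ b e = v)

lemma mem_nb {a b : E → V} {M : Finset E} {v u : V} :
    u ∈ nb a b M v ↔ ∃ e ∈ M, (a e = v ∧ b e = u) ∨ (a e = u ∧ b e = v) := by simp [nb]

lemma Rch.nb {a b : E → V} {M : Finset E} {v u : V} (h : u ∈ nb a b M v) :
    Rch a b M 1 (pp v u) := by
  obtain ⟨e, he, h1 | h1⟩ := mem_nb.1 h
  · have := Rch.edge (a := a) (b := b) he
    rwa [bd_eq, h1.1, h1.2] at this
  · have := Rch.edge (a := a) (b := b) he
    rwa [bd_eq, h1.1, h1.2, pp_comm] at this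

lemma card_nb_le {a b : E → V} (hne : ∀ e, a e ≠ b e) (F : Finset E) (v : V) :
    (nb a b univ v).card ≤ (nb a b (univ \ F) v).card + (cut a b F {v}).card := by
  classical
  have h1 : nb a b univ v ⊆ nb a b (univ \ F) v ∪
      (cut a b F {v}).image (fun e => if a e = v then b e else a e) := by
    intro u hu
    obtain ⟨e, -, he⟩ := mem_nb.1 hu
    by_cases hF : e ∈ F
    · refine mem_union_right _ (mem_image.2 ⟨e, mem_cut.2 ⟨hF, ?_⟩, ?_⟩)
      · simp only [mem_singleton]
        rcases he with he | he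
        · intro h; exact hne e (he.1.trans (h.1 he.1).symm)
        · intro h; exact hne e ((h.2 he.2).trans he.2.symm)
      · rcases he with he | he
        · rw [if_pos he.1, he.2]
        · rw [if_neg (fun h => hne e (h.trans he.2.symm)), he.1]
    · exact mem_union_left _ (mem_nb.2 ⟨e, mem_sdiff.2 ⟨mem_univ _, hF⟩, he⟩)
  exact (card_le_card h1).trans ((card_union_le _ _).trans
    (Nat.add_le_add_left card_image_le _))

lemma sum_deg {a b : E → V} (F : Finset E) : ∑ v, (cut a b F {v}).card ≤ 2 * F.card := by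
  classical
  have h4 : ∀ v, (cut a b F {v}).card =
      ∑ e ∈ F, if ¬ (a e ∈ ({v} : Finset V) ↔ b e ∈ ({v} : Finset V)) then 1 else 0 := by
    intro q; rw [cut, card_filter]
  rw [sum_congr rfl fun q _ => h4 q, sum_comm, mul_comm, ← smul_eq_mul, ← sum_const]
  refine sum_le_sum fun e _ => ?_
  rw [← card_filter]
  calc _ ≤ ({a e, b e} : Finset V).card := by
        apply card_le_card
        intro q hq1
        simp only [mem_filter, mem_univ, true_and, mem_singleton] at hq1
        simp only [mem_insert, mem_singleton]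
        by_contra h5
        push Not at h5
        exact hq1 ⟨fun h6 => absurd h6.symm h5.1, fun h6 => absurd h6.symm h5.2⟩
    _ ≤ 2 := card_le_two

/-- A small set within distance two of every vertex, after the deletion of few edges. -/
theorem exists_dom {a b : E → V} (hne : ∀ e, a e ≠ b e) {ν : ℕ} {Y : Finset V}
    (hY : ∀ v, v ∉ Y → ν ≤ (nb a b univ v).card) {F : Finset E}
    (hF : F.card ≤ Fintype.card V) :
    ∃ Z : Finset V, ν * Z.card ≤ ν * Y.card + 6 * Fintype.card V ∧
      ∀ v, ∃ z ∈ Z, Rch a b (univ \ F) 2 (pp v z) := by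
  classical
  let Ex : Finset V := univ.filter fun v => ν < 2 * (cut a b F {v}).card
  have hEx : ν * Ex.card ≤ 4 * Fintype.card V := by
    calc ν * Ex.card = ∑ v ∈ Ex, ν := by rw [sum_const, smul_eq_mul, mul_comm]
      _ ≤ ∑ v ∈ Ex, 2 * (cut a b F {v}).card :=
          sum_le_sum fun v hv => (mem_filter.1 hv).2.le
      _ ≤ ∑ v, 2 * (cut a b F {v}).card :=
          sum_le_sum_of_subset_of_nonneg (subset_univ _) fun _ _ _ => Nat.zero_le _
      _ = 2 * ∑ v, (cut a b F {v}).card := by rw [mul_sum]
      _ ≤ 2 * (2 * F.card) := Nat.mul_le_mul_left _ (sum_deg F)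
      _ ≤ 4 * Fintype.card V := by omega
  let N : V → Finset V := fun v => insert v (nb a b (univ \ F) v)
  let G : Finset V → Prop := fun S => (∀ v ∈ S, v ∉ Ex ∧ v ∉ Y) ∧
    ∀ v ∈ S, ∀ u ∈ S, v ≠ u → Disjoint (N v) (N u)
  have hGne : (univ.filter fun S => G S).Nonempty :=
    ⟨∅, by simp [G]⟩
  obtain ⟨S, hS, hmax⟩ := exists_max_image _ (fun S => S.card) hGne
  simp only [mem_filter, mem_univ, true_and] at hS hmax
  have hScard : ν * S.card ≤ 2 * Fintype.card V := by
    have h1 : ∑ v ∈ S, (N v).card ≤ Fintype.card V := by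
      rw [← card_biUnion fun v hv u hu hvu => hS.2 v hv u hu hvu]
      exact card_le_univ _
    have h2 : ∀ v ∈ S, ν ≤ 2 * (N v).card := by
      intro v hv
      obtain ⟨h3, h4⟩ := hS.1 v hv
      have h5 := hY v h4
      have h6 := card_nb_le hne F v
      have h7 : 2 * (cut a b F {v}).card ≤ ν := by
        by_contra h8
        exact h3 (mem_filter.2 ⟨mem_univ _, by omega⟩)
      have h8 : (nb a b (univ \ F) v).card ≤ (N v).card := card_le_card (subset_insert _ _)
      omega
    calc ν * S.card = ∑ v ∈ S, ν := by rw [sum_const, smul_eq_mul, mul_comm]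
      _ ≤ ∑ v ∈ S, 2 * (N v).card := sum_le_sum h2
      _ = 2 * ∑ v ∈ S, (N v).card := by rw [mul_sum]
      _ ≤ 2 * Fintype.card V := Nat.mul_le_mul_left _ h1
  refine ⟨Y ∪ (Ex ∪ S), ?_, fun v => ?_⟩
  · have h1 := card_union_le Y (Ex ∪ S)
    have h2 := card_union_le Ex S
    calc ν * (Y ∪ (Ex ∪ S)).card ≤ ν * (Y.card + (Ex.card + S.card)) :=
          Nat.mul_le_mul_left _ (by omega)
      _ = ν * Y.card + (ν * Ex.card + ν * S.card) := by ring
      _ ≤ _ := by omega
  · by_cases hvE : v ∈ Ex
    · exact ⟨v, by simp [hvE], by rw [pp_self]; exact Rch.zero _⟩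
    by_cases hvY : v ∈ Y
    · exact ⟨v, by simp [hvY], by rw [pp_self]; exact Rch.zero _⟩
    by_cases hvS : v ∈ S
    · exact ⟨v, by simp [hvS], by rw [pp_self]; exact Rch.zero _⟩
    -- maximality
    have h1 : ¬ G (insert v S) := fun h => by
      have := hmax _ h
      rw [card_insert_of_notMem hvS] at this
      omega
    have h2 : ∃ u ∈ S, ¬ Disjoint (N v) (N u) := by
      by_contra hcon
      push Not at hcon
      apply h1
      refine ⟨fun x hx => ?_, fun x hx y hy hxy => ?_⟩
      · rcases mem_insert.1 hx with rfl | hx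
        · exact ⟨hvE, hvY⟩
        · exact hS.1 x hx
      · rcases mem_insert.1 hx with hx' | hx' <;> rcases mem_insert.1 hy with hy' | hy'
        · exact absurd (hx'.trans hy'.symm) hxy
        · rw [hx']; exact hcon y hy'
        · rw [hy']; exact (hcon x hx').symm
        · exact hS.2 x hx' y hy' hxy
    obtain ⟨u, hu, hdis⟩ := h2
    obtain ⟨x, hx1, hx2⟩ := Finset.not_disjoint_iff.1 hdis
    have hone : ∀ y x, x ∈ N y → Rch a b (univ \ F) 1 (pp y x) := by
      intro y x hx
      rcases mem_insert.1 hx with rfl | hx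
      · rw [pp_self]; exact Rch.zero _
      · exact Rch.nb hx
    refine ⟨u, by simp [hu], ?_⟩
    have h3 := (hone v x hx1).add (hone u x hx2)
    rw [pp_comm u x, pp_add] at h3
    exact h3

lemma cut_card_bd (a b : E → V) (M : Finset E) (X : Finset V) :
    (((cut a b M X).card : ℕ) : ZMod 2) = fX X (∑ e ∈ M, bd a b e) := by
  rw [par, map_sum]
  exact sum_congr rfl fun e _ => (fX_bd a b X e).symm

end Pool.Agent.Lib.MP_d47134_co.Asy
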