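import Pool.Agent.Lib.MP_d47134_co.Asy.Rep2
import Pool.Agent.Lib.MP_d47134_co.Asy.Main

/-!
# Short two-even covers from a skeleton and a dominating set
-/

set_option autoImplicit false
set_option linter.unusedSectionVars false

namespace Pool.Agent.Lib.MP_d47134_co.Asy

open Finset Submodule

variable {V E : Type} [Fintype V] [DecidableEq V] [Fintype E] [DecidableEq E]

/-- An edge set contains at most `|V|` edges which meet the same cuts. -/
lemma shrink (a b : E → V) (F : Finset E) : ∃ B ⊆ F, B.card ≤ Fintype.card V ∧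
    ∀ X : Finset V, (cut a b F X).Nonempty → (cut a b B X).Nonempty := by
  classical
  obtain ⟨b0, hb1, -, hb2, hb3⟩ := exists_linearIndepOn_extension (K := ZMod 2) (v := bd a b)
    (linearIndepOn_empty (ZMod 2) (bd a b)) (Set.empty_subset (F : Set E))
  have hfin : b0.Finite := Set.toFinite b0
  have hcoe : ((hfin.toFinset : Finset E) : Set E) = b0 := hfin.coe_toFinset
  refine ⟨hfin.toFinset, ?_, ?_, fun X hX => ?_⟩
  · intro e he
    exact Finset.mem_coe.1 (hb1 (hfin.mem_toFinset.1 he))
  · have : Fintype b0 := hfin.fintype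
    have h1 := LinearIndependent.fintype_card_le_finrank hb3
    rw [Module.finrank_fintype_fun_eq_card] at h1
    refine le_trans (le_of_eq ?_) h1
    rw [← Set.toFinset_card]
    congr 1
    ext w
    rw [Set.mem_toFinset, Set.Finite.mem_toFinset]
  · by_contra hcon
    rw [not_nonempty_iff_eq_empty] at hcon
    obtain ⟨e, he⟩ := hX
    rw [mem_cut] at he
    have h1 : fX X (bd a b e) = 0 := by
      apply fX_zero (M := hfin.toFinset) (a := a) (b := b)
      · intro g hg
        by_contra h2
        have : g ∈ cut a b hfin.toFinset X := mem_cut.2 ⟨hg, h2⟩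
        rw [hcon] at this
        exact notMem_empty _ this
      · rw [hcoe]
        exact hb2 ⟨e, Finset.mem_coe.2 he.1, rfl⟩
    exact fX_bd_ne.2 he.2 h1

lemma fX_singleton (v : V) (w : V → ZMod 2) : fX {v} w = w v := by simp [fX]

/-- The boundary of `P` is supported on at most `2 |P|` vertices. -/
lemma card_supp_le (a b : E → V) (P : Finset E) :
    (univ.filter fun v => (∑ e ∈ P, bd a b e) v ≠ 0).card ≤ 2 * P.card := by
  classical
  calc _ ≤ (P.image a ∪ P.image b).card := by
        apply card_le_card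
        intro v hv
        by_contra h1
        rw [mem_union, mem_image, mem_image] at h1
        push Not at h1
        apply (mem_filter.1 hv).2
        rw [Finset.sum_apply]
        refine sum_eq_zero fun e he => ?_
        have h2 : v ≠ a e := (h1.1 e he).symm
        have h3 : v ≠ b e := (h1.2 e he).symm
        simp [bd, h2, h3]
    _ ≤ (P.image a).card + (P.image b).card := card_union_le _ _
    _ ≤ P.card + P.card := Nat.add_le_add card_image_le card_image_le
    _ = 2 * P.card := (two_mul _).symm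

/-- A cover from a skeleton `J'` and sets `Z` within distance `r` of every vertex. -/
theorem core {a b : E → V} {h k r : ℕ} (hh : 2 ≤ h) (hκ : 2 * h ≤ k) (ho : OC k a b)
    {P : Finset V → Prop}
    (hZ : ∀ F : Finset E, F.card ≤ Fintype.card V → ∃ Z, P Z ∧
      ∀ v, ∃ z ∈ Z, Rch a b (univ \ F) r (pp v z))
    (J' : Finset E) :
    ∃ (p : ℕ) (Z : Finset V) (A B : Finset E), P Z ∧ h * p ≤ J'.card ∧ A ∪ B = univ ∧
      (∀ v, Even (cut a b A {v}).card) ∧ (∀ v, Even (cut a b B {v}).card) ∧
      A.card + B.card + p ≤ Fintype.card E + J'.card +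
        r * ((univ.filter fun v => (∑ e, bd a b e) v ≠ (∑ e ∈ J', bd a b e) v).card + 2 * p) +
        (2 * r + 1) * Z.card := by
  classical
  -- disjoint connectors
  obtain ⟨ρ, hρ, hkρ, hoρ⟩ : ∃ ρ, Odd ρ ∧ k ≤ ρ ∧ OC ρ a b := by
    rcases Nat.even_or_odd k with hk2 | hk2
    · exact ⟨k + 1, hk2.add_one, by omega, oc_succ ho hk2⟩
    · exact ⟨k, hk2, le_refl _, ho⟩
  obtain ⟨F0, hF01, hF02⟩ := conn_pack hρ (by omega) (by omega : 2 * h ≤ ρ) _ a b hoρ
    (Nat.lt_succ_self _)
  choose F hFsub hF2 hFcut using fun i => shrink a b (F0 i)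
  have hF1 : ∀ i j, i ≠ j → Disjoint (F i) (F j) := fun i j hij =>
    (hF01 i j hij).mono (hFsub i) (hFsub j)
  have hmeet : ∀ i (X : Finset V), Odd (cut a b univ X).card → (cut a b (F i) X).Nonempty :=
    fun i X hX => hFcut i X (hF02 i X hX)
  -- the connector with the fewest edges of the skeleton
  obtain ⟨i, hi⟩ : ∃ i, h * (F i ∩ J').card ≤ J'.card := by
    have h1 : ∑ i, (F i ∩ J').card ≤ J'.card := by
      rw [← card_biUnion]
      · apply card_le_card
        intro e he
        obtain ⟨i, -, hi⟩ := mem_biUnion.1 he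
        exact (mem_inter.1 hi).2
      · intro i _ j _ hij
        exact (hF1 i j hij).mono inter_subset_left inter_subset_left
    obtain ⟨i, -, hi⟩ := exists_min_image (univ : Finset (Fin h)) (fun i => (F i ∩ J').card)
      ⟨⟨0, by omega⟩, mem_univ _⟩
    refine ⟨i, le_trans ?_ h1⟩
    calc h * (F i ∩ J').card = ∑ _j : Fin h, (F i ∩ J').card := by
          rw [sum_const, card_univ, Fintype.card_fin, smul_eq_mul]
      _ ≤ _ := sum_le_sum fun j hj => hi j hj
  obtain ⟨i', hi'⟩ : ∃ i' : Fin h, i' ≠ i := by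
    have : Nontrivial (Fin h) := Fin.nontrivial_iff_two_le.2 hh
    exact exists_ne i
  -- the degree parities are spanned by the edges outside `F i`
  have hmem : ∀ L : Finset E, (∀ e ∈ L, e ∉ F i) → ∑ e ∈ L, bd a b e ∈
      span (ZMod 2) (bd a b '' ((univ \ F i : Finset E) : Set E)) := by
    intro L hL
    refine sum_mem fun e he => subset_span ⟨e, ?_, rfl⟩
    rw [Finset.mem_coe, mem_sdiff]
    exact ⟨mem_univ _, hL e he⟩
  have ht : ∑ e, bd a b e ∈ span (ZMod 2) (bd a b '' ((univ \ F i : Finset E) : Set E)) := by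
    obtain ⟨J2, hJ2, hJ2p⟩ := exists_join (a := a) (b := b) (J := univ \ F i')
      fun X hX hsub => by
        obtain ⟨e, he⟩ := hmeet i' X hX
        rw [mem_cut] at he
        have := hsub (mem_cut.2 ⟨mem_univ e, he.2⟩)
        exact (mem_sdiff.1 this).2 he.1
    have h1 : ∑ e, bd a b e = ∑ e ∈ J2, bd a b e := by
      funext v
      rw [← fX_singleton v (∑ e, bd a b e), ← fX_singleton v (∑ e ∈ J2, bd a b e),
        ← cut_card_bd, ← cut_card_bd, hJ2p v]
    rw [h1]
    refine hmem J2 fun e he h4 => ?_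
    have h3 : e ∈ F i' := by
      by_contra h3
      exact (Finset.disjoint_left.1 hJ2 he) (mem_sdiff.2 ⟨mem_univ _, h3⟩)
    exact Finset.disjoint_left.1 (hF1 i' i hi') h3 h4
  obtain ⟨Z, hPZ, hZ2⟩ := hZ (F i) (hF2 i)
  set w : V → ZMod 2 := ∑ e, bd a b e - ∑ e ∈ J' \ F i, bd a b e with hw
  have hwM : w ∈ span (ZMod 2) (bd a b '' ((univ \ F i : Finset E) : Set E)) :=
    sub_mem ht (hmem _ fun e he => (mem_sdiff.1 he).2)
  obtain ⟨f, hf1, hf2, hf3⟩ := repair hZ2 hwM
  have hsupp : (univ.filter fun v => w v ≠ 0).card ≤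
      (univ.filter fun v => (∑ e, bd a b e) v ≠ (∑ e ∈ J', bd a b e) v).card +
        2 * (F i ∩ J').card := by
    have h1 : ∑ e ∈ J', bd a b e = ∑ e ∈ J' \ F i, bd a b e + ∑ e ∈ F i ∩ J', bd a b e := by
      rw [inter_comm, ← sum_union]
      · rw [sdiff_union_inter]
      · rw [Finset.disjoint_left]
        intro e h1 h2
        exact (mem_sdiff.1 h1).2 (mem_inter.1 h2).2
    refine le_trans ?_ (Nat.add_le_add_left (card_supp_le a b (F i ∩ J')) _)
    refine le_trans (card_le_card ?_) (card_union_le _ _)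
    intro v hv
    rw [mem_union, mem_filter, mem_filter]
    by_contra h2
    push Not at h2
    apply (mem_filter.1 hv).2
    have h3 := h2.1 (mem_univ v)
    have h4 := h2.2 (mem_univ v)
    rw [hw, Pi.sub_apply, h3, h1, Pi.add_apply, h4, add_zero, sub_self]
  -- the new join
  let g : E → ZMod 2 := fun e => if e ∈ J' ∧ e ∉ F i then 1 + f e else f e
  let J : Finset E := univ.filter fun e => g e ≠ 0
  have hfF : ∀ e ∈ F i, f e = 0 := fun e he => by
    by_contra h1
    exact (mem_sdiff.1 (hf1 e h1)).2 he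
  have hJF : ∀ e ∈ F i, e ∉ J := by
    intro e he h1
    have h2 := (mem_filter.1 h1).2
    simp only [g, he, not_true_eq_false, and_false, if_false, hfF e he, ne_eq] at h2
  have hz01 : ∀ z : ZMod 2, z ≠ 0 → z = 1 := by decide
  have hsumJ : ∀ (s : E → ZMod 2), ∑ e ∈ univ.filter (fun e => s e ≠ 0), bd a b e =
      ∑ e, s e • bd a b e := by
    intro s
    rw [sum_filter]
    refine sum_congr rfl fun e _ => ?_
    split_ifs with h1
    · rw [hz01 _ h1, one_smul]
    · push Not at h1
      rw [h1, zero_smul]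
  have hJbd : ∑ e ∈ J, bd a b e = ∑ e, bd a b e := by
    rw [hsumJ g]
    have h1 : ∀ e, g e • bd a b e = (if e ∈ J' \ F i then bd a b e else 0) + f e • bd a b e := by
      intro e
      simp only [g, mem_sdiff]
      split_ifs with h1
      · rw [add_smul, one_smul]
      · rw [zero_add]
    rw [sum_congr rfl fun e _ => h1 e, sum_add_distrib, hf3, Finset.sum_ite_mem, univ_inter,
      hw, add_sub_cancel]
  have hJPJ : ∀ X, (((cut a b J X).card : ℕ) : ZMod 2) = ((cut a b univ X).card : ZMod 2) := by
    intro X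
    rw [cut_card_bd, hJbd, ← cut_card_bd]
  have hJcard : J.card + (F i ∩ J').card ≤ J'.card +
      (r * (univ.filter fun v => w v ≠ 0).card + (2 * r + 1) * Z.card) := by
    have h1 : J.card ≤ (J' \ F i).card + (univ.filter fun e => f e ≠ 0).card := by
      refine le_trans (card_le_card ?_) (card_union_le _ _)
      intro e he
      have h2 := (mem_filter.1 he).2
      by_cases h3 : e ∈ J' ∧ e ∉ F i
      · exact mem_union_left _ (mem_sdiff.2 h3)
      · simp only [g, h3, if_false] at h2
        exact mem_union_right _ (mem_filter.2 ⟨mem_univ _, h2⟩)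
    have h2 : (J' \ F i).card + (F i ∩ J').card = J'.card := by
      rw [inter_comm, card_sdiff_add_card_inter]
    omega
  -- the cover
  obtain ⟨L, hL1, hL2⟩ := exists_join (a := a) (b := b) (J := J) fun X hX hsub => by
    obtain ⟨e, he⟩ := hmeet i X hX
    rw [mem_cut] at he
    exact hJF e he.1 (hsub (mem_cut.2 ⟨mem_univ e, he.2⟩))
  have hev : ∀ n : ℕ, Even n ↔ (n : ZMod 2) = 0 := fun n => ZMod.natCast_eq_zero_iff_even.symm
  have h11 : ∀ z : ZMod 2, z + z = 0 := by decide
  have hsplit : ∀ (M N : Finset E) (v : V), Disjoint M N →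
      (((cut a b (M ∪ N) {v}).card : ℕ) : ZMod 2) =
        (cut a b M {v}).card + (cut a b N {v}).card := by
    intro M N v hMN
    rw [par, par, par, sum_union hMN]
  refine ⟨(F i ∩ J').card, Z, L ∪ J, univ \ L, hPZ, hi, ?_, ?_, ?_, ?_⟩
  · ext e
    simp only [mem_union, mem_sdiff, mem_univ, true_and, iff_true]
    tauto
  · intro v
    rw [hev, hsplit _ _ _ hL1, hL2, hJPJ {v}, h11]
  · intro v
    rw [hev]
    have h2 := hsplit L (univ \ L) v disjoint_sdiff
    rw [union_sdiff_of_subset (subset_univ L), hL2] at h2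
    have h3 : ∀ y z : ZMod 2, y = y + z → z = 0 := by decide
    exact h3 _ _ h2
  · have h2 : (L ∪ J).card = L.card + J.card := card_union_of_disjoint hL1
    have h3 : (univ \ L).card + L.card = Fintype.card E := by
      rw [card_sdiff_add_card_eq_card (subset_univ L), card_univ]
    have h4 := Nat.mul_le_mul_left r hsupp
    omega

end Pool.Agent.Lib.MP_d47134_co.Asy
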