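import Pool.Agent.Lib.MP_d47134_co.Asy.Main

/-!
# A small dominating set, after the deletion of few edges
-/

set_option autoImplicit false
set_option linter.unusedSectionVars false

namespace Pool.Agent.Lib.MP_d47134_co.Asy

open Finset Submodule

variable {V E : Type} [Fintype V] [DecidableEq V] [Fintype E] [DecidableEq E]

/-- One greedy step after the other. -/
lemma greedy {N : V → Finset V} {U : Finset V} {D : ℝ}
    (hD0 : 0 < D) (hD : ∀ v ∈ U, D ≤ (N v).card) (hDn : D ≤ Fintype.card V) (t : ℕ) :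
    ∃ Z : Finset V, Z.card ≤ t ∧
      ((U.filter fun v => Disjoint (N v) Z).card : ℝ) ≤
        Fintype.card V * (1 - D / Fintype.card V) ^ t := by
  classical
  have hn : (0 : ℝ) < Fintype.card V := hD0.trans_le hDn
  induction t with
  | zero =>
    refine ⟨∅, le_refl _, ?_⟩
    rw [pow_zero, mul_one]
    exact_mod_cast (card_le_univ _)
  | succ t ih =>
    obtain ⟨Z, hZ1, hZ2⟩ := ih
    set W := U.filter fun v => Disjoint (N v) Z with hW
    -- a vertex which covers many vertices of `W`
    obtain ⟨u, hu⟩ : ∃ u : V, D * W.card ≤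
        Fintype.card V * ((W.filter fun v => u ∈ N v).card : ℝ) := by
      by_contra hcon
      push Not at hcon
      have h1 : ∑ u : V, ((W.filter fun v => u ∈ N v).card : ℝ) = ∑ v ∈ W, ((N v).card : ℝ) := by
        have h2 : ∀ u : V, ((W.filter fun v => u ∈ N v).card : ℝ) =
            ∑ v ∈ W, if u ∈ N v then (1 : ℝ) else 0 := by
          intro u
          rw [card_filter]; push_cast; rfl
        rw [sum_congr rfl fun u _ => h2 u, sum_comm]
        refine sum_congr rfl fun v _ => ?_
        rw [← sum_filter, sum_const, nsmul_eq_mul, mul_one]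
        congr 2
        ext u; simp
      have h3 : ∑ v ∈ W, D ≤ ∑ v ∈ W, ((N v).card : ℝ) :=
        sum_le_sum fun v hv => hD v (mem_filter.1 hv).1
      rw [sum_const, nsmul_eq_mul] at h3
      have hne : (univ : Finset V).Nonempty := by
        rw [← card_pos, card_univ]; exact_mod_cast hn
      have h4 := sum_lt_sum_of_nonempty hne fun u (_ : u ∈ univ) => hcon u
      rw [← mul_sum, h1, sum_const, nsmul_eq_mul, card_univ] at h4
      have h5 := lt_of_mul_lt_mul_left h4 hn.le
      linarith [mul_comm D (W.card : ℝ)]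
    refine ⟨insert u Z, (card_insert_le _ _).trans (by omega), ?_⟩
    have h1 : (U.filter fun v => Disjoint (N v) (insert u Z)) =
        W.filter fun v => u ∉ N v := by
      ext v
      simp only [hW, mem_filter, disjoint_insert_right]
      tauto
    have h2 := card_filter_add_card_filter_not (s := W) fun v => u ∈ N v
    have h3 : ((W.filter fun v => u ∈ N v).card : ℝ) + (W.filter fun v => u ∉ N v).card =
        W.card := by exact_mod_cast h2
    rw [h1, pow_succ, ← mul_assoc]
    have h4 : ((W.filter fun v => u ∉ N v).card : ℝ) ≤ W.card * (1 - D / Fintype.card V) := by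
      have h5 : D / Fintype.card V * W.card ≤ ((W.filter fun v => u ∈ N v).card : ℝ) := by
        rw [div_mul_eq_mul_div, div_le_iff₀ hn]
        linarith [mul_comm (Fintype.card V : ℝ) ((W.filter fun v => u ∈ N v).card : ℝ)]
      linarith [mul_comm (W.card : ℝ) (D / Fintype.card V)]
    refine h4.trans (mul_le_mul_of_nonneg_right hZ2 ?_)
    rw [sub_nonneg, div_le_one hn]
    exact hDn

/-- A dominating set of about `n log D / D` vertices. -/
lemma exists_greedy {N : V → Finset V} {U : Finset V} {D : ℝ}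
    (hD1 : 1 ≤ D) (hD : ∀ v ∈ U, D ≤ (N v).card) (hself : ∀ v, v ∈ N v) :
    ∃ Z : Finset V, (Z.card : ℝ) ≤ Fintype.card V / D * (Real.log D + 2) ∧
      ∀ v ∈ U, ∃ z ∈ Z, z ∈ N v := by
  classical
  have hD0 : 0 < D := by linarith
  rcases U.eq_empty_or_nonempty with hU | ⟨v0, hv0⟩
  · refine ⟨∅, ?_, by simp [hU]⟩
    rw [card_empty, Nat.cast_zero]
    have := Real.log_nonneg hD1
    positivity
  have hDn : D ≤ Fintype.card V := (hD v0 hv0).trans (by exact_mod_cast card_le_univ _)
  have hn : (0 : ℝ) < Fintype.card V := hD0.trans_le hDn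
  set t : ℕ := ⌈(Fintype.card V / D * Real.log D : ℝ)⌉₊ with ht
  obtain ⟨Z, hZ1, hZ2⟩ := greedy hD0 hD hDn t
  have hlog := Real.log_nonneg hD1
  have h1 : ((U.filter fun v => Disjoint (N v) Z).card : ℝ) ≤ Fintype.card V / D := by
    refine hZ2.trans ?_
    have h2 : (1 - D / Fintype.card V : ℝ) ≤ Real.exp (-(D / Fintype.card V)) := by
      have := Real.add_one_le_exp (-(D / Fintype.card V : ℝ))
      linarith
    have h3 : (0 : ℝ) ≤ 1 - D / Fintype.card V := by
      rw [sub_nonneg, div_le_one hn]; exact hDn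
    have h4 : (1 - D / Fintype.card V : ℝ) ^ t ≤ 1 / D := by
      refine (pow_le_pow_left₀ h3 h2 t).trans ?_
      rw [← Real.exp_nat_mul, one_div, ← Real.exp_log hD0, ← Real.exp_neg, Real.exp_log hD0]
      apply Real.exp_le_exp.2
      have h5 : Fintype.card V / D * Real.log D ≤ (t : ℝ) := Nat.le_ceil _
      have h6 : Real.log D ≤ t * (D / Fintype.card V) := by
        have h7 := mul_le_mul_of_nonneg_right h5 (by positivity : (0 : ℝ) ≤ D / Fintype.card V)
        have h8 : (Fintype.card V : ℝ) / D * Real.log D * (D / Fintype.card V) = Real.log D := by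
          field_simp
        linarith
      linarith [mul_neg (t : ℝ) (D / Fintype.card V)]
    calc (Fintype.card V : ℝ) * (1 - D / Fintype.card V) ^ t ≤ Fintype.card V * (1 / D) :=
          mul_le_mul_of_nonneg_left h4 hn.le
      _ = Fintype.card V / D := by ring
  refine ⟨Z ∪ U.filter fun v => Disjoint (N v) Z, ?_, fun v hv => ?_⟩
  · have h2 : ((Z ∪ U.filter fun v => Disjoint (N v) Z).card : ℝ) ≤
        Z.card + (U.filter fun v => Disjoint (N v) Z).card := by
      exact_mod_cast card_union_le _ _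
    have h3 : (Z.card : ℝ) ≤ t := by exact_mod_cast hZ1
    have h4 : (t : ℝ) < Fintype.card V / D * Real.log D + 1 :=
      Nat.ceil_lt_add_one (by positivity)
    have h5 : (1 : ℝ) ≤ Fintype.card V / D := by
      rw [le_div_iff₀ hD0, one_mul]; exact hDn
    nlinarith
  · by_cases h2 : Disjoint (N v) Z
    · exact ⟨v, mem_union_right _ (mem_filter.2 ⟨hv, h2⟩), hself v⟩
    · obtain ⟨z, hz1, hz2⟩ := Finset.not_disjoint_iff.1 h2
      exact ⟨z, mem_union_left _ hz2, hz1⟩

/-- A small dominating set, after the deletion of few edges. -/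
theorem exists_dom1 {a b : E → V} (hne : ∀ e, a e ≠ b e) {ν : ℕ} (hν : 0 < ν) {Y : Finset V}
    (hY : ∀ v, v ∉ Y → ν ≤ (nb a b univ v).card) {F : Finset E}
    (hF : F.card ≤ Fintype.card V) :
    ∃ Z : Finset V, (Z.card : ℝ) ≤ Y.card +
        (8 + 2 * Real.log (1 + ν / 2)) * (Fintype.card V / ν) ∧
      ∀ v, ∃ z ∈ Z, Rch a b (univ \ F) 1 (pp v z) := by
  classical
  let Ex : Finset V := univ.filter fun v => ν < 2 * (cut a b F {v}).card
  have hEx : ν * Ex.card ≤ 4 * Fintype.card V := by
    calc ν * Ex.card = ∑ v ∈ Ex, ν := by rw [sum_const, smul_eq_mul, mul_comm]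
      _ ≤ ∑ v ∈ Ex, 2 * (cut a b F {v}).card :=
          sum_le_sum fun v hv => (mem_filter.1 hv).2.le
      _ ≤ ∑ v, 2 * (cut a b F {v}).card :=
          sum_le_sum_of_subset_of_nonneg (subset_univ _) fun _ _ _ => Nat.zero_le _
      _ = 2 * ∑ v, (cut a b F {v}).card := by rw [mul_sum]
      _ ≤ 2 * (2 * F.card) := Nat.mul_le_mul_left _ (sum_deg F)
      _ ≤ 4 * Fintype.card V := by omega
  let N : V → Finset V := fun v => insert v (nb a b (univ \ F) v)
  let U : Finset V := univ.filter fun v => v ∉ Ex ∧ v ∉ Y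
  have hD : ∀ v ∈ U, (1 + ν / 2 : ℝ) ≤ (N v).card := by
    intro v hv
    obtain ⟨h3, h4⟩ := (mem_filter.1 hv).2
    have h5 := hY v h4
    have h6 := card_nb_le hne F v
    have h7 : 2 * (cut a b F {v}).card ≤ ν := by
      by_contra h8
      exact h3 (mem_filter.2 ⟨mem_univ _, by omega⟩)
    have h8 : (N v).card = (nb a b (univ \ F) v).card + 1 := by
      apply card_insert_of_notMem
      intro h9
      obtain ⟨e, -, h10⟩ := mem_nb.1 h9
      rcases h10 with h10 | h10
      · exact hne e (h10.1.trans h10.2.symm)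
      · exact hne e (h10.1.trans h10.2.symm)
    have h9 : ν + 2 ≤ 2 * (N v).card := by omega
    have h10 : (ν : ℝ) + 2 ≤ 2 * (N v).card := by exact_mod_cast h9
    linarith
  have hν' : (0 : ℝ) < ν := by exact_mod_cast hν
  obtain ⟨Z, hZ1, hZ2⟩ := exists_greedy (D := 1 + ν / 2) (by linarith) hD
    fun v => mem_insert_self _ _
  refine ⟨Y ∪ (Ex ∪ Z), ?_, fun v => ?_⟩
  · have h1 : ((Y ∪ (Ex ∪ Z)).card : ℝ) ≤ Y.card + (Ex.card + Z.card) := by
      have := card_union_le Y (Ex ∪ Z)
      have := card_union_le Ex Z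
      exact_mod_cast (by omega : (Y ∪ (Ex ∪ Z)).card ≤ Y.card + (Ex.card + Z.card))
    have h2 : (Ex.card : ℝ) ≤ 4 * (Fintype.card V / ν) := by
      rw [mul_div_assoc', le_div_iff₀ hν']
      have : (ν : ℝ) * Ex.card ≤ 4 * Fintype.card V := by exact_mod_cast hEx
      linarith
    have h3 : (Fintype.card V : ℝ) / (1 + ν / 2) ≤ 2 * (Fintype.card V / ν) := by
      rw [mul_div_assoc', div_le_div_iff₀ (by linarith) hν']
      have : (0 : ℝ) ≤ Fintype.card V := Nat.cast_nonneg _
      nlinarith
    have hlog : 0 ≤ Real.log (1 + ν / 2) := Real.log_nonneg (by linarith)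
    have h4 : (Z.card : ℝ) ≤ 2 * (Fintype.card V / ν) * (Real.log (1 + ν / 2) + 2) :=
      hZ1.trans (mul_le_mul_of_nonneg_right h3 (by linarith))
    linarith [mul_add (2 * ((Fintype.card V : ℝ) / ν)) (Real.log (1 + ν / 2)) 2]
  · by_cases hvU : v ∈ U
    · obtain ⟨z, hz1, hz2⟩ := hZ2 v hvU
      refine ⟨z, by simp [hz1], ?_⟩
      rcases mem_insert.1 hz2 with rfl | hz2
      · rw [pp_self]; exact Rch.zero _
      · exact Rch.nb hz2
    · refine ⟨v, ?_, by rw [pp_self]; exact Rch.zero _⟩
      by_contra h1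
      rw [mem_union, mem_union] at h1
      push Not at h1
      exact hvU (mem_filter.2 ⟨mem_univ _, h1.2.1, h1.1⟩)

end Pool.Agent.Lib.MP_d47134_co.Asy
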