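import Pool.Agent.Lib.MP_d47134_co.Asy.Core
import Pool.Agent.Lib.MP_d47134_co.Asy.Dom1

/-!
# The two main theorems, for edges given by their ends
-/

set_option autoImplicit false
set_option linter.unusedSectionVars false

namespace Pool.Agent.Lib.MP_d47134_co.Asy

open Finset Submodule

variable {V E : Type} [Fintype V] [DecidableEq V] [Fintype E] [DecidableEq E]

/-- The vertices with fewer than `ν` distinct neighbours. -/
def few (a b : E → V) (ν : ℕ) : Finset V := univ.filter fun v => (nb a b univ v).card < ν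

lemma few_spec {a b : E → V} {ν : ℕ} : ∀ v, v ∉ few a b ν → ν ≤ (nb a b univ v).card := by
  intro v hv
  by_contra h
  exact hv (mem_filter.2 ⟨mem_univ _, by omega⟩)

/-- A parity join with at most `|E| / k` edges. -/
lemma exists_pj {a b : E → V} {k : ℕ} (hk : 3 ≤ k) (ho : OC k a b) :
    ∃ J : Finset E, (∀ v, (∑ e, bd a b e) v = (∑ e ∈ J, bd a b e) v) ∧
      k * J.card ≤ Fintype.card E := by
  obtain ⟨ρ, hρ, hkρ, hoρ⟩ : ∃ ρ, Odd ρ ∧ k ≤ ρ ∧ OC ρ a b := by
    rcases Nat.even_or_odd k with hk2 | hk2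
    · exact ⟨k + 1, hk2.add_one, by omega, oc_succ ho hk2⟩
    · exact ⟨k, hk2, le_refl _, ho⟩
  obtain ⟨J, hJ⟩ := exists_sol hρ (by omega) _ a b (fun _ => 1) hoρ
    (fun _ => zero_le_one) (Nat.lt_succ_self _)
  refine ⟨J, fun v => ?_, ?_⟩
  · rw [← fX_singleton v (∑ e, bd a b e), ← fX_singleton v (∑ e ∈ J, bd a b e),
      ← cut_card_bd, ← cut_card_bd]
    exact (hJ.join {v}).symm
  · have h4 : ((ρ : ℕ) : ℝ) * J.card ≤ Fintype.card E := by
      have := hJ.wt
      simpa using this
    have h5 : ρ * J.card ≤ Fintype.card E := by exact_mod_cast h4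
    exact (Nat.mul_le_mul_right _ hkρ).trans h5

/-- **Asymptotic theorem.** -/
theorem asy {a b : E → V} (hne : ∀ e, a e ≠ b e) {k ν : ℕ} (hk : 4 ≤ k) (hν : 0 < ν)
    (ho : OC k a b) :
    ∃ A B : Finset E, A ∪ B = univ ∧ (∀ v, Even (cut a b A {v}).card) ∧
      (∀ v, Even (cut a b B {v}).card) ∧
      (A.card + B.card : ℝ) ≤ (1 + 1 / k + 8 / k ^ 2) * Fintype.card E +
        30 / ν * Fintype.card V + 5 * (few a b ν).card := by
  classical
  obtain ⟨J, hJ1, hJ2⟩ := exists_pj (by omega) ho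
  obtain ⟨p, Z, A, B, hZ, hp, hAB, hA, hB, hc⟩ := core (h := k / 2) (r := 2) (by omega)
    (by omega) ho (P := fun Z => ν * Z.card ≤ ν * (few a b ν).card + 6 * Fintype.card V)
    (fun F hF => exists_dom hne few_spec hF) J
  refine ⟨A, B, hAB, hA, hB, ?_⟩
  have hD : (univ.filter fun v => (∑ e, bd a b e) v ≠ (∑ e ∈ J, bd a b e) v) = ∅ := by
    rw [filter_eq_empty_iff]
    intro v _ h
    exact h (hJ1 v)
  rw [hD, card_empty] at hc
  have h1 : A.card + B.card ≤ Fintype.card E + J.card + 3 * p + 5 * Z.card := by omega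
  have h1' : (A.card + B.card : ℝ) ≤ Fintype.card E + J.card + 3 * p + 5 * Z.card := by
    exact_mod_cast h1
  have hk' : (4 : ℝ) ≤ k := by exact_mod_cast hk
  have hν' : (0 : ℝ) < ν := by exact_mod_cast hν
  have h2 : (J.card : ℝ) ≤ Fintype.card E / k := by
    rw [le_div_iff₀ (by linarith), mul_comm]; exact_mod_cast hJ2
  have h3 : (p : ℝ) ≤ 5 / (2 * k) * J.card := by
    have h4 : 2 * k * p ≤ 5 * J.card := by
      calc 2 * k * p ≤ 5 * (k / 2) * p := Nat.mul_le_mul_right _ (by omega)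
        _ = 5 * (k / 2 * p) := by ring
        _ ≤ 5 * J.card := Nat.mul_le_mul_left _ hp
    have h5 : (2 * k * p : ℝ) ≤ 5 * J.card := by exact_mod_cast h4
    rw [div_mul_eq_mul_div, le_div_iff₀ (by linarith)]
    linarith
  have h4 : (Z.card : ℝ) ≤ (few a b ν).card + 6 / ν * Fintype.card V := by
    have h5 : (ν * Z.card : ℝ) ≤ ν * (few a b ν).card + 6 * Fintype.card V := by
      exact_mod_cast hZ
    rw [← sub_nonneg]
    have h6 : 0 ≤ (ν : ℝ) * ((few a b ν).card + 6 / ν * Fintype.card V - Z.card) := by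
      have h7 : (ν : ℝ) * ((few a b ν).card + 6 / ν * Fintype.card V - Z.card) =
          ν * (few a b ν).card + 6 * Fintype.card V - ν * Z.card := by
        field_simp
      rw [h7]; linarith
    exact nonneg_of_mul_nonneg_right h6 hν'
  have hm : (0 : ℝ) ≤ Fintype.card E := Nat.cast_nonneg _
  have h5 : (p : ℝ) ≤ 5 / (2 * k) * (Fintype.card E / k) :=
    h3.trans (mul_le_mul_of_nonneg_left h2 (by positivity))
  have h6 : 3 * (5 / (2 * k) * (Fintype.card E / k)) ≤ 8 / k ^ 2 * (Fintype.card E : ℝ) := by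
    have : 3 * (5 / (2 * k) * (Fintype.card E / k)) = (15 / 2 : ℝ) / k ^ 2 * Fintype.card E := by
      field_simp; ring
    rw [this]
    refine mul_le_mul_of_nonneg_right ?_ hm
    refine div_le_div_of_nonneg_right (by norm_num) (by positivity)
  have h7 : (1 + 1 / k + 8 / k ^ 2) * Fintype.card E = Fintype.card E + Fintype.card E / k +
      8 / k ^ 2 * (Fintype.card E : ℝ) := by ring
  rw [h7]
  have h8 : 5 * (6 / ν * Fintype.card V) = 30 / ν * (Fintype.card V : ℝ) := by ring
  linarith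

/-- The vertices of odd degree. -/
def odv (a b : E → V) : Finset V := univ.filter fun v => Odd (cut a b univ {v}).card

/-- **Theorem with a matching of odd vertices.** -/
theorem mat {a b : E → V} (hne : ∀ e, a e ≠ b e) {k ν : ℕ} (hk : 4 ≤ k) (hν : 0 < ν)
    (ho : OC k a b) {M : Finset E} (hM1 : ∀ e ∈ M, a e ∈ odv a b ∧ b e ∈ odv a b)
    (hM2 : ∀ e ∈ M, ∀ f ∈ M, ∀ v, (v = a e ∨ v = b e) → (v = a f ∨ v = b f) → e = f) :
    ∃ A B : Finset E, A ∪ B = univ ∧ (∀ v, Even (cut a b A {v}).card) ∧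
      (∀ v, Even (cut a b B {v}).card) ∧
      (A.card + B.card : ℝ) ≤ Fintype.card E + (odv a b).card - M.card +
        (5 / (4 * k) + (24 + 6 * Real.log (1 + ν / 2)) / ν) * Fintype.card V +
        3 * (few a b ν).card := by
  classical
  obtain ⟨p, Z, A, B, hZ, hp, hAB, hA, hB, hc⟩ := core (h := k / 2) (r := 1) (by omega)
    (by omega) ho (P := fun Z => (Z.card : ℝ) ≤ (few a b ν).card +
        (8 + 2 * Real.log (1 + ν / 2)) * (Fintype.card V / ν))
    (fun F hF => exists_dom1 hne hν few_spec hF) M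
  refine ⟨A, B, hAB, hA, hB, ?_⟩
  -- the covered vertices
  set C : Finset V := M.image a ∪ M.image b with hC
  have hCc : C.card = 2 * M.card := by
    rw [hC, card_union_of_disjoint, card_image_of_injOn, card_image_of_injOn, two_mul]
    · intro e he f hf h
      exact hM2 e (Finset.mem_coe.1 he) f (Finset.mem_coe.1 hf) (b e) (Or.inr rfl) (Or.inr h)
    · intro e he f hf h
      exact hM2 e (Finset.mem_coe.1 he) f (Finset.mem_coe.1 hf) (a e) (Or.inl rfl) (Or.inl h)
    · rw [Finset.disjoint_left]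
      intro v hv hv'
      obtain ⟨e, he, rfl⟩ := mem_image.1 hv
      obtain ⟨f, hf, h⟩ := mem_image.1 hv'
      have h1 := hM2 e he f hf (a e) (Or.inl rfl) (Or.inr h.symm)
      subst h1
      exact hne e h.symm
  have hCT : C ⊆ odv a b := by
    intro v hv
    rcases mem_union.1 hv with hv | hv
    · obtain ⟨e, he, rfl⟩ := mem_image.1 hv
      exact (hM1 e he).1
    · obtain ⟨e, he, rfl⟩ := mem_image.1 hv
      exact (hM1 e he).2
  have hcov : ∀ v ∈ C, (∑ e ∈ M, bd a b e) v = 1 := by
    intro v hv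
    have h0 : ∃ e ∈ M, v = a e ∨ v = b e := by
      rcases mem_union.1 hv with hv | hv
      · obtain ⟨e, he, rfl⟩ := mem_image.1 hv
        exact ⟨e, he, Or.inl rfl⟩
      · obtain ⟨e, he, rfl⟩ := mem_image.1 hv
        exact ⟨e, he, Or.inr rfl⟩
    obtain ⟨e, he, hve⟩ := h0
    rw [Finset.sum_apply, sum_eq_single_of_mem e he]
    · rcases hve with h | h
      · have : v ≠ b e := fun h' => hne e (h.symm.trans h')
        rw [bd, Pi.add_apply, h, Pi.single_eq_same, Pi.single_eq_of_ne (hne e), add_zero]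
      · rw [bd, Pi.add_apply, h, Pi.single_eq_same, Pi.single_eq_of_ne (hne e).symm, zero_add]
    · intro f hf hfe
      have h1 : v ≠ a f := fun h => hfe (hM2 f hf e he v (Or.inl h) hve)
      have h2 : v ≠ b f := fun h => hfe (hM2 f hf e he v (Or.inr h) hve)
      rw [bd, Pi.add_apply, Pi.single_eq_of_ne h1, Pi.single_eq_of_ne h2, add_zero]
  have hunc : ∀ v, v ∉ C → (∑ e ∈ M, bd a b e) v = 0 := by
    intro v hv
    rw [Finset.sum_apply]
    refine sum_eq_zero fun e he => ?_
    have h1 : v ≠ a e := fun h => hv (mem_union_left _ (mem_image.2 ⟨e, he, h.symm⟩))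
    have h2 : v ≠ b e := fun h => hv (mem_union_right _ (mem_image.2 ⟨e, he, h.symm⟩))
    rw [bd, Pi.add_apply, Pi.single_eq_of_ne h1, Pi.single_eq_of_ne h2, add_zero]
  have hodd : ∀ v, (∑ e, bd a b e) v = 0 ∨ v ∈ odv a b ∧ (∑ e, bd a b e) v = 1 := by
    intro v
    rw [← fX_singleton v (∑ e, bd a b e), ← cut_card_bd]
    rcases Nat.even_or_odd (cut a b univ {v}).card with h | h
    · exact Or.inl (ZMod.natCast_eq_zero_iff_even.2 h)
    · exact Or.inr ⟨mem_filter.2 ⟨mem_univ _, h⟩, ZMod.natCast_eq_one_iff_odd.2 h⟩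
  have hD : (univ.filter fun v => (∑ e, bd a b e) v ≠ (∑ e ∈ M, bd a b e) v).card +
      2 * M.card ≤ (odv a b).card := by
    have h1 : (univ.filter fun v => (∑ e, bd a b e) v ≠ (∑ e ∈ M, bd a b e) v) ⊆
        odv a b \ C := by
      intro v hv
      have hv := (mem_filter.1 hv).2
      rcases hodd v with h | ⟨h2, h⟩
      · have h3 : v ∈ C := by
          by_contra h3
          exact hv (h.trans (hunc v h3).symm)
        have h4 := hCT h3
        have h5 : (∑ e, bd a b e) v = 1 := by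
          rw [← fX_singleton v (∑ e, bd a b e), ← cut_card_bd]
          exact ZMod.natCast_eq_one_iff_odd.2 (mem_filter.1 h4).2
        rw [h] at h5
        exact absurd h5 (by decide)
      · refine mem_sdiff.2 ⟨h2, fun h3 => hv (h.trans (hcov v h3).symm)⟩
    have h2 := card_le_card h1
    rw [card_sdiff_of_subset hCT, hCc] at h2
    have h3 := card_le_card hCT
    omega
  have h1 : A.card + B.card + M.card ≤ Fintype.card E + (odv a b).card + p + 3 * Z.card := by
    omega
  have h1' : (A.card + B.card + M.card : ℝ) ≤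
      Fintype.card E + (odv a b).card + p + 3 * Z.card := by exact_mod_cast h1
  have hk' : (4 : ℝ) ≤ k := by exact_mod_cast hk
  have h3 : (p : ℝ) ≤ 5 / (4 * k) * Fintype.card V := by
    have h5 : 2 * M.card ≤ Fintype.card V := by
      rw [← hCc]; exact card_le_univ _
    have h4 : 4 * k * p ≤ 5 * Fintype.card V := by
      calc 4 * k * p = 2 * (2 * k * p) := by ring
        _ ≤ 2 * (5 * (k / 2) * p) :=
          Nat.mul_le_mul_left _ (Nat.mul_le_mul_right _ (by omega))
        _ = 10 * (k / 2 * p) := by ring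
        _ ≤ 10 * M.card := Nat.mul_le_mul_left _ hp
        _ ≤ 5 * Fintype.card V := by omega
    have h5 : (4 * k * p : ℝ) ≤ 5 * Fintype.card V := by exact_mod_cast h4
    rw [div_mul_eq_mul_div, le_div_iff₀ (by linarith)]
    linarith
  have h8 : (5 / (4 * k) + (24 + 6 * Real.log (1 + ν / 2)) / ν) * (Fintype.card V : ℝ) =
      5 / (4 * k) * Fintype.card V +
        3 * ((8 + 2 * Real.log (1 + ν / 2)) * (Fintype.card V / ν)) := by ring
  rw [h8]
  linarith

end Pool.Agent.Lib.MP_d47134_co.Asy
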