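import Mathlib

/-!
# Packing bases of a linear matroid (Edmonds), by a closure argument
-/

set_option autoImplicit false
set_option linter.unusedSectionVars false

namespace Pool.Agent.Lib.MP_d47134_co.Asy

open Finset Submodule

variable {K W E : Type} [Field K] [AddCommGroup W] [Module K W] [Fintype E] [DecidableEq E]

/-- An element of the span of an independent family lies in the span of its support. -/
lemma mem_span_support {v : E → W} {s : Set E} (hs : LinearIndepOn K v s) {x : W}
    (hx : x ∈ span K (v '' s)) :
    x ∈ span K (v '' {e | e ∈ s ∧ x ∉ span K (v '' (s \ {e}))}) := by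
  classical
  rw [Finsupp.mem_span_image_iff_linearCombination] at hx
  obtain ⟨l, hl, rfl⟩ := hx
  rw [Finsupp.mem_span_image_iff_linearCombination]
  refine ⟨l, ?_, rfl⟩
  rw [Finsupp.mem_supported] at hl ⊢
  intro e he
  refine ⟨hl he, fun hcon => ?_⟩
  have he0 : l e ≠ 0 := Finsupp.mem_support_iff.1 he
  have h1 : Finsupp.linearCombination K v (l.erase e) ∈ span K (v '' (s \ {e})) := by
    rw [Finsupp.mem_span_image_iff_linearCombination]
    refine ⟨l.erase e, ?_, rfl⟩
    rw [Finsupp.mem_supported]
    intro y hy
    rw [Finsupp.support_erase] at hy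
    have hy' := Finset.mem_coe.1 hy
    rw [Finset.mem_erase] at hy'
    exact ⟨hl (Finset.mem_coe.2 hy'.2), hy'.1⟩
  have h2 : Finsupp.linearCombination K v l = l e • v e +
      Finsupp.linearCombination K v (l.erase e) := by
    conv_lhs => rw [← Finsupp.single_add_erase e l]
    rw [map_add, Finsupp.linearCombination_single]
  rw [h2] at hcon
  have h3 : l e • v e ∈ span K (v '' (s \ {e})) := by
    have := sub_mem hcon h1
    rwa [add_sub_cancel_right] at this
  have h4 : v e ∈ span K (v '' (s \ {e})) := by
    have := smul_mem _ (l e)⁻¹ h3
    rwa [smul_smul, inv_mul_cancel₀ he0, one_smul] at this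
  exact LinearIndepOn.notMem_span hs (hl he) h4

/-- The colour class. -/
def cls {h : ℕ} (c : E → Option (Fin h)) (i : Fin h) : Set E := {e | c e = some i}

/-- All colour classes are independent. -/
def Ok (K : Type) [Field K] [Module K W] {h : ℕ} (v : E → W) (c : E → Option (Fin h)) : Prop :=
  ∀ i, LinearIndepOn K v (cls c i)

/-- The number of coloured elements. -/
def cnt {h : ℕ} (c : E → Option (Fin h)) : ℕ := (univ.filter fun e => c e ≠ none).card

/-- An exchange: the uncoloured `e` replaces `e'` in the colour `i`. -/
def Step (K : Type) [Field K] [Module K W] {h : ℕ} (v : E → W) (c c' : E → Option (Fin h)) :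
    Prop :=
  ∃ e e' i, c e = none ∧ c e' = some i ∧ v e ∉ span K (v '' (cls c i \ {e'})) ∧
    c' = Function.update (Function.update c e (some i)) e' none

section

variable {h : ℕ} {v : E → W} {c c' : E → Option (Fin h)}

lemma cls_step {e e' : E} {i : Fin h} (he : c e = none) (he' : c e' = some i) :
    cls (Function.update (Function.update c e (some i)) e' none) i =
      insert e (cls c i \ {e'}) := by
  have hne : e ≠ e' := fun h => by rw [h, he'] at he; exact absurd he (by simp)
  ext x
  simp only [cls, Set.mem_ofPred_eq, Set.mem_insert_iff, Set.mem_sdiff, Set.mem_singleton_iff]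
  by_cases h1 : x = e'
  · subst h1
    simp [hne.symm]
  · rw [Function.update_of_ne h1]
    by_cases h2 : x = e
    · subst h2; simp
    · rw [Function.update_of_ne h2]; simp [h1, h2]

lemma cls_step_ne {e e' : E} {i j : Fin h} (he : c e = none) (he' : c e' = some i)
    (hj : j ≠ i) :
    cls (Function.update (Function.update c e (some i)) e' none) j = cls c j := by
  have hne : e ≠ e' := fun h => by rw [h, he'] at he; exact absurd he (by simp)
  ext x
  simp only [cls, Set.mem_ofPred_eq]
  by_cases h1 : x = e'
  · subst h1
    simp [he', hj.symm]
  · rw [Function.update_of_ne h1]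
    by_cases h2 : x = e
    · subst h2; simp [he, hj.symm]
    · rw [Function.update_of_ne h2]

lemma cnt_step {e e' : E} {i : Fin h} (he : c e = none) (he' : c e' = some i) :
    cnt (Function.update (Function.update c e (some i)) e' none) = cnt c := by
  have hne : e ≠ e' := fun h => by rw [h, he'] at he; exact absurd he (by simp)
  unfold cnt
  have h1 : (univ.filter fun x => Function.update (Function.update c e (some i)) e' none x ≠ none)
      = insert e ((univ.filter fun x => c x ≠ none).erase e') := by
    ext x
    simp only [mem_filter, mem_univ, true_and, mem_insert, mem_erase]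
    by_cases h1 : x = e'
    · subst h1
      simp [hne.symm]
    · rw [Function.update_of_ne h1]
      by_cases h2 : x = e
      · subst h2; simp
      · rw [Function.update_of_ne h2]; simp [h1, h2]
  rw [h1, card_insert_of_notMem, card_erase_of_mem]
  · have : 0 < (univ.filter fun x => c x ≠ none).card :=
      card_pos.2 ⟨e', by simp [he']⟩
    omega
  · simp [he']
  · simp [he, hne]

lemma Ok.step (hc : Ok K v c) (hs : Step K v c c') : Ok K v c' := by
  obtain ⟨e, e', i, he, he', hv, rfl⟩ := hs
  intro j
  by_cases hj : j = i
  · subst hj
    rw [cls_step he he']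
    exact ((hc j).mono Set.sdiff_subset).insert hv
  · rw [cls_step_ne he he' hj]
    exact hc j

/-- In a colouring of maximal size every uncoloured element is spanned by every class. -/
lemma mem_span_of_max (hc : Ok K v c) (hmax : ∀ c1 : E → Option (Fin h), Ok K v c1 → cnt c1 ≤ cnt c) {e : E}
    (he : c e = none) (i : Fin h) : v e ∈ span K (v '' cls c i) := by
  by_contra hcon
  have h1 : Ok K v (Function.update c e (some i)) := by
    intro j
    by_cases hj : j = i
    · subst hj
      have : cls (Function.update c e (some j)) j = insert e (cls c j) := by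
        ext x
        simp only [cls, Set.mem_ofPred_eq, Set.mem_insert_iff]
        by_cases h2 : x = e
        · subst h2; simp
        · rw [Function.update_of_ne h2]; simp [h2]
      rw [this]
      exact (hc j).insert hcon
    · have : cls (Function.update c e (some i)) j = cls c j := by
        ext x
        simp only [cls, Set.mem_ofPred_eq]
        by_cases h2 : x = e
        · subst h2; simp [he, Ne.symm hj]
        · rw [Function.update_of_ne h2]
      rw [this]
      exact hc j
  have h2 := hmax _ h1
  have h3 : cnt (Function.update c e (some i)) = cnt c + 1 := by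
    unfold cnt
    have : (univ.filter fun x => Function.update c e (some i) x ≠ none) =
        insert e (univ.filter fun x => c x ≠ none) := by
      ext x
      simp only [mem_filter, mem_univ, true_and, mem_insert]
      by_cases h2 : x = e
      · subst h2; simp
      · rw [Function.update_of_ne h2]; simp [h2]
    rw [this, card_insert_of_notMem (by simp [he])]
  omega

end

/-- **Base packing** for vectors: if every set `R` satisfies `h rk(E) ≤ h rk(R) + |E - R|`, then
there are `h` disjoint bases. -/
theorem pack [FiniteDimensional K W] (h : ℕ) (v : E → W)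
    (H : ∀ R : Finset E, h * Module.finrank K (span K (Set.range v)) ≤
      h * Module.finrank K (span K (v '' (R : Set E))) + (univ \ R).card) :
    ∃ F : Fin h → Finset E, (∀ i j, i ≠ j → Disjoint (F i) (F j)) ∧
      (∀ i, LinearIndepOn K v (F i : Set E)) ∧
      (∀ i, span K (v '' (F i : Set E)) = span K (Set.range v)) := by
  classical
  -- a colouring of maximal size
  obtain ⟨c0, hc0, hmax0⟩ : ∃ c0 : E → Option (Fin h), Ok K v c0 ∧
      ∀ c1, Ok K v c1 → cnt c1 ≤ cnt c0 := by
    have hne : (univ.filter fun c : E → Option (Fin h) => Ok K v c).Nonempty := by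
      refine ⟨fun _ => none, ?_⟩
      simp only [mem_filter, mem_univ, true_and]
      intro i
      have : cls (fun _ : E => (none : Option (Fin h))) i = ∅ := by
        ext x; simp [cls]
      rw [this]
      exact linearIndepOn_empty K v
    obtain ⟨c0, h1, h2⟩ := exists_max_image _ (fun c => cnt c) hne
    simp only [mem_filter, mem_univ, true_and] at h1 h2
    exact ⟨c0, h1, h2⟩
  let Rc : (E → Option (Fin h)) → Prop := fun c => Relation.ReflTransGen (Step K v) c0 c
  have hRc : ∀ c, Rc c → Ok K v c ∧ cnt c = cnt c0 := by
    intro c hc
    induction hc with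
    | refl => exact ⟨hc0, rfl⟩
    | tail _ hs ih =>
      refine ⟨ih.1.step hs, ?_⟩
      obtain ⟨e, e', i, he, he', hv, rfl⟩ := hs
      rw [cnt_step he he', ih.2]
  have hmax : ∀ c, Rc c → ∀ c1, Ok K v c1 → cnt c1 ≤ cnt c := fun c hc c1 h1 => by
    rw [(hRc c hc).2]; exact hmax0 c1 h1
  let R : Set E := {e | ∃ c, Rc c ∧ c e = none}
  -- an uncoloured element is spanned by the part of a class in `R`
  have key : ∀ c, Rc c → ∀ e, c e = none → ∀ i, v e ∈ span K (v '' (cls c i ∩ R)) := by
    intro c hc e he i
    have h1 := mem_span_of_max (hRc c hc).1 (hmax c hc) he i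
    have h2 := mem_span_support ((hRc c hc).1 i) h1
    refine span_mono (Set.image_mono ?_) h2
    rintro x ⟨hx1, hx2⟩
    refine ⟨hx1, _, hc.tail ⟨e, x, i, he, hx1, hx2, rfl⟩, ?_⟩
    simp
  -- the span of a class in `R` is invariant
  have inv : ∀ c, Rc c → ∀ i, span K (v '' (cls c i ∩ R)) = span K (v '' (cls c0 i ∩ R)) := by
    intro c hc
    induction hc with
    | refl => intro i; rfl
    | @tail b _ hc hs ih =>
      intro i
      rw [← ih i]
      have hc' := Relation.ReflTransGen.tail hc hs
      obtain ⟨e, e', j, he, he', hv, rfl⟩ := hs
      by_cases hij : i = j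
      · subst hij
        have heR : e ∈ R := ⟨_, hc, he⟩
        have heR' : e' ∈ R := ⟨_, hc', by simp⟩
        rw [cls_step he he']
        have h1 : insert e (cls b i \ {e'}) ∩ R = insert e ((cls b i ∩ R) \ {e'}) := by
          ext x
          simp only [Set.mem_inter_iff, Set.mem_insert_iff, Set.mem_sdiff,
            Set.mem_singleton_iff]
          constructor
          · rintro ⟨h1 | h1, h2⟩
            · exact Or.inl h1
            · exact Or.inr ⟨⟨h1.1, h2⟩, h1.2⟩
          · rintro (h1 | h1)
            · exact ⟨Or.inl h1, h1 ▸ heR⟩
            · exact ⟨Or.inr ⟨h1.1.1, h1.2⟩, h1.1.2⟩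
        have h2 : cls b i ∩ R = insert e' ((cls b i ∩ R) \ {e'}) := by
          ext x
          simp only [Set.mem_inter_iff, Set.mem_insert_iff, Set.mem_sdiff,
            Set.mem_singleton_iff]
          constructor
          · intro h1
            by_cases h3 : x = e'
            · exact Or.inl h3
            · exact Or.inr ⟨h1, h3⟩
          · rintro (h1 | h1)
            · subst h1; exact ⟨he', heR'⟩
            · exact h1.1
        have h3 : v e ∈ span K (v '' (cls b i ∩ R)) := key _ hc e he i
        have h4 : v e ∉ span K (v '' ((cls b i ∩ R) \ {e'})) := fun h5 =>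
          hv (span_mono (Set.image_mono (Set.sdiff_subset_sdiff_left Set.inter_subset_left)) h5)
        rw [h1]
        have h5 : v e' ∈ span K (v '' insert e ((cls b i ∩ R) \ {e'})) := by
          rw [Set.image_insert_eq]
          apply mem_span_insert_exchange _ h4
          rw [← Set.image_insert_eq, ← h2]
          exact h3
        apply le_antisymm
        · rw [span_le]
          rintro _ ⟨x, hx, rfl⟩
          rcases hx with hx | hx
          · subst hx; exact h3
          · exact subset_span ⟨x, hx.1, rfl⟩
        · rw [span_le]
          rintro _ ⟨x, hx, rfl⟩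
          rw [h2] at hx
          rcases hx with hx | hx
          · subst hx; exact h5
          · exact subset_span ⟨x, Or.inr hx, rfl⟩
      · rw [cls_step_ne he he' hij]
  have hRS : ∀ i, span K (v '' (cls c0 i ∩ R)) = span K (v '' R) := by
    intro i
    apply le_antisymm
    · exact span_mono (Set.image_mono Set.inter_subset_right)
    · rw [span_le]
      rintro _ ⟨e, ⟨c, hc, hce⟩, rfl⟩
      rw [← inv c hc i]
      exact key c hc e hce i
  -- counting
  have hfr : ∀ s : Finset E, LinearIndepOn K v (s : Set E) →
      Module.finrank K (span K (v '' (s : Set E))) = s.card := by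
    intro s hs
    have h1 := finrank_span_eq_card hs
    rw [Set.range_comp' , Subtype.range_coe] at h1
    rw [h1]
    simp
  let F : Fin h → Finset E := fun i => univ.filter fun e => c0 e = some i
  have hF : ∀ i, (F i : Set E) = cls c0 i := by
    intro i; ext x; simp [F, cls]
  let RF : Finset E := univ.filter fun e => e ∈ R
  have hRF : (RF : Set E) = R := by ext x; simp [RF]
  have hdis : ∀ i j, i ≠ j → Disjoint (F i) (F j) := by
    intro i j hij
    rw [Finset.disjoint_left]
    intro x hx hx'
    simp only [F, mem_filter, mem_univ, true_and] at hx hx'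
    rw [hx] at hx'
    exact hij (Option.some_injective _ hx')
  have hind : ∀ i, LinearIndepOn K v (F i : Set E) := fun i => by rw [hF]; exact hc0 i
  have hcard1 : ∀ i, (F i ∩ RF).card = Module.finrank K (span K (v '' (RF : Set E))) := by
    intro i
    rw [← hfr (F i ∩ RF) ((hind i).mono (by simp)), coe_inter, hF, hRF, hRS i]
  have hcard2 : ∀ i, (F i).card ≤ Module.finrank K (span K (Set.range v)) := by
    intro i
    rw [← hfr (F i) (hind i)]
    exact Submodule.finrank_mono (span_mono (Set.image_subset_range _ _))
  have hsum : (univ \ RF).card = ∑ i, (F i \ RF).card := by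
    rw [← card_biUnion]
    · congr 1
      ext x
      simp only [mem_sdiff, mem_univ, true_and, mem_biUnion]
      constructor
      · intro hx
        rcases hcx : c0 x with _ | i
        · exact absurd (show x ∈ RF by
            simp only [RF, mem_filter, mem_univ, true_and]
            exact ⟨c0, Relation.ReflTransGen.refl, hcx⟩) hx
        · exact ⟨i, by simp [F, hcx], hx⟩
      · rintro ⟨i, _, hx⟩
        exact hx
    · intro i _ j _ hij
      exact (hdis i j hij).mono sdiff_subset sdiff_subset
  have hsum2 : ∑ i, (F i).card = (univ \ RF).card +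
      h * Module.finrank K (span K (v '' (RF : Set E))) := by
    rw [hsum]
    have : ∀ i, (F i).card = (F i \ RF).card +
        Module.finrank K (span K (v '' (RF : Set E))) := fun i => by
      rw [← hcard1 i, card_sdiff_add_card_inter]
    rw [sum_congr rfl fun i _ => this i, sum_add_distrib]
    simp
  have hH := H RF
  have hall : ∀ i, (F i).card = Module.finrank K (span K (Set.range v)) := by
    by_contra hcon
    push Not at hcon
    obtain ⟨i, hi⟩ := hcon
    have h1 : ∑ i, (F i).card < ∑ _i : Fin h, Module.finrank K (span K (Set.range v)) :=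
      sum_lt_sum (fun i _ => hcard2 i) ⟨i, mem_univ i, lt_of_le_of_ne (hcard2 i) hi⟩
    rw [sum_const, card_univ, Fintype.card_fin, smul_eq_mul] at h1
    omega
  refine ⟨F, hdis, hind, fun i => ?_⟩
  apply Submodule.eq_of_le_of_finrank_eq (span_mono (Set.image_subset_range _ _))
  rw [hfr (F i) (hind i), hall i]

end Pool.Agent.Lib.MP_d47134_co.Asy
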