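import Pool.Agent.Lib.MP_d47134_co.Asy.Tree

/-!
# Repairing the parity of a few edges by a short set of edges
-/

set_option autoImplicit false
set_option linter.unusedSectionVars false

namespace Pool.Agent.Lib.MP_d47134_co.Asy

open Finset Submodule

variable {V E : Type} [Fintype V] [DecidableEq V] [Fintype E] [DecidableEq E]

/-- `w` is the boundary of at most `c` edges of `M`. -/
def Rch (a b : E → V) (M : Finset E) (c : ℕ) (w : V → ZMod 2) : Prop :=
  ∃ f : E → ZMod 2, (∀ e, f e ≠ 0 → e ∈ M) ∧ (univ.filter fun e => f e ≠ 0).card ≤ c ∧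
    ∑ e, f e • bd a b e = w

variable {a b : E → V} {M : Finset E}

lemma Rch.zero (c : ℕ) : Rch a b M c 0 := ⟨0, by simp, by simp, by simp⟩

lemma Rch.edge {e : E} (he : e ∈ M) : Rch a b M 1 (bd a b e) := by
  refine ⟨Pi.single e 1, ?_, ?_, ?_⟩
  · intro x hx
    by_cases h : x = e
    · rw [h]; exact he
    · exact absurd (Pi.single_eq_of_ne h _) hx
  · rw [card_le_one]
    intro x hx y hy
    simp only [mem_filter, mem_univ, true_and] at hx hy
    have h1 : x = e := by
      by_contra h; exact hx (Pi.single_eq_of_ne h _)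
    have h2 : y = e := by
      by_contra h; exact hy (Pi.single_eq_of_ne h _)
    rw [h1, h2]
  · rw [Finset.sum_eq_single e]
    · simp
    · intro x _ hx
      rw [Pi.single_eq_of_ne hx, zero_smul]
    · intro h; exact absurd (mem_univ e) h

lemma Rch.mono {c c' : ℕ} {w : V → ZMod 2} (h : Rch a b M c w) (hc : c ≤ c') :
    Rch a b M c' w := by
  obtain ⟨f, h1, h2, h3⟩ := h
  exact ⟨f, h1, h2.trans hc, h3⟩

lemma Rch.add {c c' : ℕ} {w w' : V → ZMod 2} (h : Rch a b M c w) (h' : Rch a b M c' w') :
    Rch a b M (c + c') (w + w') := by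
  obtain ⟨f, h1, h2, h3⟩ := h
  obtain ⟨f', h1', h2', h3'⟩ := h'
  refine ⟨f + f', fun e he => ?_, ?_, ?_⟩
  · by_contra hcon
    have h4 : f e = 0 := by by_contra h; exact hcon (h1 e h)
    have h5 : f' e = 0 := by by_contra h; exact hcon (h1' e h)
    exact he (by simp [h4, h5])
  · calc (univ.filter fun e => (f + f') e ≠ 0).card ≤
        ((univ.filter fun e => f e ≠ 0) ∪ (univ.filter fun e => f' e ≠ 0)).card := by
          apply card_le_card
          intro e he
          simp only [mem_union, mem_filter, mem_univ, true_and, Pi.add_apply] at he ⊢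
          by_contra hcon
          push Not at hcon
          rw [hcon.1, hcon.2] at he
          exact he (add_zero 0)
      _ ≤ _ := card_union_le _ _
      _ ≤ c + c' := Nat.add_le_add h2 h2'
  · rw [← h3, ← h3', ← sum_add_distrib]
    exact sum_congr rfl fun e _ => by rw [Pi.add_apply, add_smul]

lemma Rch.of_span {B : Finset E} (hB : B ⊆ M) {w : V → ZMod 2}
    (hw : w ∈ span (ZMod 2) (bd a b '' (B : Set E))) : Rch a b M B.card w := by
  rw [Finsupp.mem_span_image_iff_linearCombination] at hw
  obtain ⟨l, hl, rfl⟩ := hw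
  rw [Finsupp.mem_supported] at hl
  have hl' : ∀ e, l e ≠ 0 → e ∈ B := fun e he =>
    Finset.mem_coe.1 (hl (Finset.mem_coe.2 (Finsupp.mem_support_iff.2 he)))
  refine ⟨l, fun e he => hB (hl' e he), ?_, ?_⟩
  · apply card_le_card
    intro e he
    exact hl' e (mem_filter.1 he).2
  · rw [Finsupp.linearCombination_apply, Finsupp.sum_fintype]
    intro e; rw [zero_smul]

lemma Rch.mem_span {c : ℕ} {w : V → ZMod 2} (h : Rch a b M c w) :
    ∃ L ⊆ M, L.card ≤ c ∧ w ∈ span (ZMod 2) (bd a b '' (L : Set E)) := by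
  obtain ⟨f, h1, h2, h3⟩ := h
  refine ⟨univ.filter fun e => f e ≠ 0, fun e he => h1 e (mem_filter.1 he).2, h2, ?_⟩
  rw [← h3]
  refine sum_mem fun e _ => ?_
  by_cases he : f e = 0
  · rw [he, zero_smul]; exact zero_mem _
  · exact smul_mem _ _ (subset_span ⟨e, by simp [he], rfl⟩)

/-- The characteristic vector of two points. -/
def pp (u v : V) : V → ZMod 2 := Pi.single u 1 + Pi.single v 1

lemma add_self_fun (w : V → ZMod 2) : w + w = 0 := by
  funext i; exact CharTwo.add_self_eq_zero _

lemma pp_self (u : V) : pp u u = 0 := add_self_fun _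

lemma pp_comm (u v : V) : pp u v = pp v u := add_comm _ _

lemma pp_add (u v w : V) : pp u v + pp v w = pp u w := by
  unfold pp
  rw [add_assoc, ← add_assoc (Pi.single v 1) (Pi.single v 1), add_self_fun, zero_add]

lemma bd_eq (e : E) : bd a b e = pp (a e) (b e) := rfl

end Pool.Agent.Lib.MP_d47134_co.Asy
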