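import Pool.Agent.Lib.MP_d47134_co.Asy.Conn2

/-!
# Repairing parities in a possibly disconnected edge set
-/

set_option autoImplicit false
set_option linter.unusedSectionVars false

namespace Pool.Agent.Lib.MP_d47134_co.Asy

open Finset Submodule

variable {V E : Type} [Fintype V] [DecidableEq V] [Fintype E] [DecidableEq E]

variable {a b : E → V} {M : Finset E}

lemma fX_pp (X : Finset V) (u v : V) :
    fX X (pp u v) = (if u ∈ X then 1 else 0) + (if v ∈ X then 1 else 0) := by
  rw [pp, map_add, fX_single, fX_single]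

/-- A set without crossing edges of `M` is invisible for the span of `M`. -/
lemma fX_zero {X : Finset V} (hX : ∀ e ∈ M, (a e ∈ X ↔ b e ∈ X)) {w : V → ZMod 2}
    (hw : w ∈ span (ZMod 2) (bd a b '' (M : Set E))) : fX X w = 0 := by
  have h1 : span (ZMod 2) (bd a b '' (M : Set E)) ≤ LinearMap.ker (fX X) := by
    rw [span_le]
    rintro _ ⟨e, he, rfl⟩
    rw [SetLike.mem_coe, LinearMap.mem_ker]
    by_contra h2
    exact fX_bd_ne.1 h2 (hX e (Finset.mem_coe.1 he))
  exact LinearMap.mem_ker.1 (h1 hw)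

/-- A set `Z` within distance `r` of every vertex is connected, as far as `M` connects it, by at
most `(2 r + 1) |Z|` edges. -/
theorem dominate {r : ℕ} {Z : Finset V} (hZ : ∀ v, ∃ z ∈ Z, Rch a b M r (pp v z)) :
    ∃ B ⊆ M, B.card ≤ (2 * r + 1) * Z.card ∧
      ∀ z ∈ Z, ∀ z' ∈ Z, pp z z' ∈ span (ZMod 2) (bd a b '' (M : Set E)) →
        pp z z' ∈ span (ZMod 2) (bd a b '' (B : Set E)) := by
  classical
  let s : Set (V → ZMod 2) := {w | ∃ z ∈ Z, ∃ z' ∈ Z, w = pp z z' ∧ Rch a b M (2 * r + 1) (pp z z')}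
  obtain ⟨t, hts, htspan, htli⟩ := exists_linearIndependent (ZMod 2) s
  have htfin : t.Finite := Set.toFinite t
  have hcard : htfin.toFinset.card ≤ Z.card := by
    have h1 : span (ZMod 2) t ≤
        span (ZMod 2) ((Z.image fun z => (Pi.single z 1 : V → ZMod 2) : Finset _) :
          Set (V → ZMod 2)) := by
      rw [span_le]
      intro w hw
      obtain ⟨z, hz, z', hz', rfl, -⟩ := hts hw
      refine add_mem (subset_span ?_) (subset_span ?_)
      · rw [Finset.mem_coe]; exact mem_image_of_mem _ hz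
      · rw [Finset.mem_coe]; exact mem_image_of_mem _ hz'
    have h2 := Submodule.finrank_mono h1
    have h3 := finrank_span_finset_le_card (R := ZMod 2)
      (Z.image fun z => (Pi.single z 1 : V → ZMod 2))
    have h4 : Module.finrank (ZMod 2) (span (ZMod 2) t) = htfin.toFinset.card := by
      have : Fintype t := htfin.fintype
      rw [finrank_span_set_eq_card htli]
      congr 1
      ext w
      rw [Set.mem_toFinset, Set.Finite.mem_toFinset]
    have h5 : (Z.image fun z => (Pi.single z 1 : V → ZMod 2)).card ≤ Z.card := card_image_le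
    rw [← h4]
    exact h2.trans (h3.trans h5)
  -- edges for each member of the basis
  have hL : ∀ w ∈ t, ∃ L ⊆ M, L.card ≤ 2 * r + 1 ∧ w ∈ span (ZMod 2) (bd a b '' (L : Set E)) := by
    intro w hw
    obtain ⟨z, hz, z', hz', rfl, hR⟩ := hts hw
    exact hR.mem_span
  choose! L hL1 hL2 hL3 using hL
  let B : Finset E := htfin.toFinset.biUnion L
  have hBM : B ⊆ M := by
    intro e he
    obtain ⟨w, hw, he⟩ := mem_biUnion.1 he
    exact hL1 w (htfin.mem_toFinset.1 hw) he
  have hsB : span (ZMod 2) s ≤ span (ZMod 2) (bd a b '' (B : Set E)) := by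
    rw [← htspan, span_le]
    intro w hw
    refine span_mono (Set.image_mono ?_) (hL3 w hw)
    intro e he
    exact Finset.mem_coe.2 (mem_biUnion.2 ⟨w, htfin.mem_toFinset.2 hw, Finset.mem_coe.1 he⟩)
  refine ⟨B, hBM, ?_, fun z hz z' hz' hM => hsB ?_⟩
  · calc B.card ≤ ∑ w ∈ htfin.toFinset, (L w).card := card_biUnion_le
      _ ≤ ∑ _w ∈ htfin.toFinset, (2 * r + 1) :=
          sum_le_sum fun w hw => hL2 w (htfin.mem_toFinset.1 hw)
      _ = (2 * r + 1) * htfin.toFinset.card := by rw [sum_const, smul_eq_mul, mul_comm]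
      _ ≤ (2 * r + 1) * Z.card := Nat.mul_le_mul_left _ hcard
  · -- `z` and `z'` are equivalent modulo `span s`
    by_contra hcon
    let Y : Finset V := Z.filter fun y => pp z y ∈ span (ZMod 2) s
    have hmY : ∀ y, y ∈ Y ↔ y ∈ Z ∧ pp z y ∈ span (ZMod 2) s := fun y => by simp [Y]
    have hstep : ∀ y ∈ Y, ∀ z1 ∈ Z, Rch a b M (2 * r + 1) (pp y z1) → z1 ∈ Y := by
      intro y hy z1 hz1 hR
      refine (hmY z1).2 ⟨hz1, ?_⟩
      rw [← pp_add z y z1]
      exact add_mem ((hmY y).1 hy).2 (subset_span ⟨y, ((hmY y).1 hy).1, z1, hz1, rfl, hR⟩)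
    let X : Finset V := univ.filter fun v => ∃ y ∈ Y, Rch a b M r (pp v y)
    have hmX : ∀ v, v ∈ X ↔ ∃ y ∈ Y, Rch a b M r (pp v y) := fun v => by simp [X]
    have hzY : z ∈ Y := (hmY z).2 ⟨hz, by rw [pp_self]; exact zero_mem _⟩
    have hzX : z ∈ X := (hmX z).2 ⟨z, hzY, by rw [pp_self]; exact Rch.zero _⟩
    have hz'X : z' ∉ X := by
      intro h1
      obtain ⟨y, hy, hR⟩ := (hmX z').1 h1
      rw [pp_comm] at hR
      exact hcon ((hmY z').1 (hstep y hy z' hz' (hR.mono (by omega)))).2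
    have hcross : ∀ e ∈ M, (a e ∈ X ↔ b e ∈ X) := by
      intro e he
      have key : ∀ x x', pp x x' = bd a b e → x ∈ X → x' ∈ X := by
        intro x x' hxx hx
        obtain ⟨y, hy, hR⟩ := (hmX x).1 hx
        obtain ⟨z1, hz1, hR'⟩ := hZ x'
        have h3 := ((hR.add (Rch.edge he)).add hR')
        rw [pp_comm x y, ← hxx, pp_add, pp_add] at h3
        exact (hmX x').2 ⟨z1, hstep y hy z1 hz1 (h3.mono (by omega)), hR'⟩
      exact ⟨key _ _ rfl, key _ _ (pp_comm _ _)⟩
    have h1 := fX_zero hcross hM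
    rw [fX_pp, if_pos hzX, if_neg hz'X] at h1
    simp at h1

/-- Vectors supported on `Z` and spanned by `M` are spanned by `B`. -/
lemma span_of_support {B : Finset E} {Z : Finset V}
    (hB : ∀ z ∈ Z, ∀ z' ∈ Z, pp z z' ∈ span (ZMod 2) (bd a b '' (M : Set E)) →
        pp z z' ∈ span (ZMod 2) (bd a b '' (B : Set E)))
    {w : V → ZMod 2} (hw : w ∈ span (ZMod 2) (bd a b '' (M : Set E)))
    (hs : ∀ u, w u ≠ 0 → u ∈ Z) : w ∈ span (ZMod 2) (bd a b '' (B : Set E)) := by
  classical
  let U := span (ZMod 2) (bd a b '' (M : Set E))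
  let Q := Quotient (st U)
  let mk : V → Q := Quotient.mk (st U)
  -- representatives in `Z`
  have hrep : ∀ q : Q, ∃ ρ : V, (∃ z ∈ Z, mk z = q) → ρ ∈ Z ∧ mk ρ = q := by
    intro q
    by_cases h : ∃ z ∈ Z, mk z = q
    · obtain ⟨z, hz, hzq⟩ := h
      exact ⟨z, fun _ => ⟨hz, hzq⟩⟩
    · obtain ⟨u, -⟩ := Quotient.exists_rep q
      exact ⟨u, fun h' => absurd h' h⟩
  choose ρ hρ using hrep
  have h1 : w = ∑ u ∈ Z, w u • (Pi.single u 1 : V → ZMod 2) := by
    funext i
    rw [Finset.sum_apply]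
    simp only [Pi.smul_apply, Pi.single_apply, smul_eq_mul, mul_ite, mul_one, mul_zero]
    rw [Finset.sum_ite_eq]
    split_ifs with h2
    · rfl
    · by_contra h3; exact h2 (hs i h3)
  have h2 : ∀ u, (Pi.single u 1 : V → ZMod 2) = pp u (ρ (mk u)) + Pi.single (ρ (mk u)) 1 := by
    intro u
    unfold pp
    rw [add_assoc, add_self_fun, add_zero]
  have h3 : ∑ u ∈ Z, w u • (Pi.single (ρ (mk u)) 1 : V → ZMod 2) = 0 := by
    rw [← Finset.sum_fiberwise_of_maps_to (g := mk) (t := Z.image mk)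
      (fun u hu => mem_image_of_mem _ hu)]
    refine sum_eq_zero fun q hq => ?_
    have h4 : ∑ u ∈ Z with mk u = q, w u • (Pi.single (ρ (mk u)) 1 : V → ZMod 2) =
        (∑ u ∈ Z with mk u = q, w u) • (Pi.single (ρ q) 1 : V → ZMod 2) := by
      rw [sum_smul]
      refine sum_congr rfl fun u hu => ?_
      rw [(mem_filter.1 hu).2]
    rw [h4]
    have h5 : fX (univ.filter fun u => mk u = q) w = 0 := by
      apply fX_zero (M := M) (a := a) (b := b) _ hw
      intro e he
      have h6 : bd a b e ∈ U := subset_span ⟨e, Finset.mem_coe.2 he, rfl⟩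
      have h7 : mk (a e) = mk (b e) := Quotient.sound (s := st U) h6
      simp only [mem_filter, mem_univ, true_and, h7]
    have h6 : fX (univ.filter fun u => mk u = q) w = ∑ u ∈ Z with mk u = q, w u := by
      simp only [fX, LinearMap.sum_apply, LinearMap.proj_apply]
      symm
      apply sum_subset
      · intro u hu
        exact mem_filter.2 ⟨mem_univ _, (mem_filter.1 hu).2⟩
      · intro u hu hu'
        by_contra h7
        exact hu' (mem_filter.2 ⟨hs u h7, (mem_filter.1 hu).2⟩)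
    rw [← h6, h5, zero_smul]
  have h4 : w = ∑ u ∈ Z, w u • pp u (ρ (mk u)) := by
    conv_lhs => rw [h1]
    rw [sum_congr rfl fun u _ => by rw [h2 u, smul_add], sum_add_distrib, h3, add_zero]
  rw [h4]
  refine sum_mem fun u hu => smul_mem _ _ ?_
  obtain ⟨h5, h6⟩ := hρ (mk u) ⟨u, hu, rfl⟩
  refine hB u hu _ h5 ?_
  exact Quotient.exact (s := st U) h6.symm

/-- A vector spanned by `M` is the boundary of few edges of `M`. -/
theorem repair {r : ℕ} {Z : Finset V} (hZ : ∀ v, ∃ z ∈ Z, Rch a b M r (pp v z))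
    {w : V → ZMod 2} (hw : w ∈ span (ZMod 2) (bd a b '' (M : Set E))) :
    Rch a b M (r * (univ.filter fun v => w v ≠ 0).card + (2 * r + 1) * Z.card) w := by
  classical
  obtain ⟨B, hB1, hB2, hB3⟩ := dominate hZ
  choose z hz hR using hZ
  have h1 : ∀ Q : Finset V, Rch a b M (r * Q.card) (∑ v ∈ Q, pp v (z v)) := by
    intro Q
    induction Q using Finset.induction_on with
    | empty => simpa using Rch.zero 0
    | insert v Q hv ih =>
      rw [sum_insert hv, card_insert_of_notMem hv]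
      have := (hR v).add ih
      exact this.mono (by rw [mul_add, mul_one]; omega)
  set S : Finset V := univ.filter fun v => w v ≠ 0 with hS
  have hone : ∀ x : ZMod 2, x ≠ 0 → x = 1 := by decide
  have hwS : w = ∑ v ∈ S, (Pi.single v 1 : V → ZMod 2) := by
    funext i
    rw [Finset.sum_apply]
    simp only [Pi.single_apply]
    rw [Finset.sum_ite_eq]
    split_ifs with h2
    · exact hone _ (mem_filter.1 h2).2
    · by_contra h3
      exact h2 (mem_filter.2 ⟨mem_univ _, h3⟩)
  have hsum : w = ∑ v ∈ S, pp v (z v) + ∑ v ∈ S, (Pi.single (z v) 1 : V → ZMod 2) := by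
    rw [← sum_add_distrib]
    conv_lhs => rw [hwS]
    refine sum_congr rfl fun v _ => ?_
    unfold pp
    rw [add_assoc, add_self_fun, add_zero]
  have h2 : ∑ v ∈ S, (Pi.single (z v) 1 : V → ZMod 2) ∈
      span (ZMod 2) (bd a b '' (M : Set E)) := by
    obtain ⟨L, hL1, -, hL3⟩ := (h1 S).mem_span
    have h3 : ∑ v ∈ S, pp v (z v) ∈ span (ZMod 2) (bd a b '' (M : Set E)) := by
      refine span_mono (Set.image_mono ?_) hL3
      exact fun e he => Finset.mem_coe.2 (hL1 (Finset.mem_coe.1 he))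
    have h4 := sub_mem hw h3
    rwa [show w - ∑ v ∈ S, pp v (z v) = ∑ v ∈ S, (Pi.single (z v) 1 : V → ZMod 2) from by
      rw [sub_eq_iff_eq_add']; exact hsum] at h4
  have h3 : ∑ v ∈ S, (Pi.single (z v) 1 : V → ZMod 2) ∈
      span (ZMod 2) (bd a b '' (B : Set E)) := by
    refine span_of_support hB3 h2 fun u hu => ?_
    by_contra h4
    apply hu
    rw [Finset.sum_apply]
    refine sum_eq_zero fun v _ => ?_
    have h5 : u ≠ z v := fun h => h4 (h ▸ hz _)
    simp [h5]
  have h4 := (h1 S).add ((Rch.of_span hB1 h3).mono hB2)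
  rwa [← hsum] at h4

end Pool.Agent.Lib.MP_d47134_co.Asy
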