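import Pool.Agent.Lib.MP_d47134_co.Asy.Pack
import Pool.Agent.Lib.MP_d47134_co.Final

/-!
# Disjoint connected spanning edge sets in a multigraph of large edge-connectivity
-/

set_option autoImplicit false
set_option linter.unusedSectionVars false

namespace Pool.Agent.Lib.MP_d47134_co.Asy

open Finset Submodule

variable {V E : Type} [Fintype V] [DecidableEq V] [Fintype E] [DecidableEq E]

/-- The characteristic vector of the two ends of an edge, modulo `2`. -/
def bd (a b : E → V) (e : E) : V → ZMod 2 := Pi.single (a e) 1 + Pi.single (b e) 1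

/-- The functional `sum over X`. -/
def fX (X : Finset V) : (V → ZMod 2) →ₗ[ZMod 2] ZMod 2 := ∑ v ∈ X, LinearMap.proj v

lemma fX_single (X : Finset V) (u : V) :
    fX X (Pi.single u 1) = if u ∈ X then 1 else 0 := by
  simp only [fX, LinearMap.sum_apply, LinearMap.proj_apply, Pi.single_apply]
  rw [Finset.sum_ite_eq']

lemma fX_bd (a b : E → V) (X : Finset V) (e : E) :
    fX X (bd a b e) = (if a e ∈ X then 1 else 0) + (if b e ∈ X then 1 else 0) := by
  rw [bd, map_add, fX_single, fX_single]

lemma fX_bd_ne {a b : E → V} {X : Finset V} {e : E} :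
    fX X (bd a b e) ≠ 0 ↔ ¬ (a e ∈ X ↔ b e ∈ X) := by
  rw [fX_bd]
  by_cases h1 : a e ∈ X <;> by_cases h2 : b e ∈ X <;> simp [h1, h2]
  decide

/-- A set which spans meets every nonempty cut. -/
lemma cut_nonempty {a b : E → V} {F : Finset E}
    (hF : span (ZMod 2) (bd a b '' (F : Set E)) = span (ZMod 2) (Set.range (bd a b)))
    {X : Finset V} (hX : (cut a b univ X).Nonempty) : (cut a b F X).Nonempty := by
  by_contra hcon
  rw [not_nonempty_iff_eq_empty] at hcon
  have h1 : span (ZMod 2) (bd a b '' (F : Set E)) ≤ LinearMap.ker (fX X) := by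
    rw [span_le]
    rintro _ ⟨e, he, rfl⟩
    rw [SetLike.mem_coe, LinearMap.mem_ker]
    by_contra h2
    have : e ∈ cut a b F X := mem_cut.2 ⟨Finset.mem_coe.1 he, fX_bd_ne.1 h2⟩
    rw [hcon] at this
    exact notMem_empty _ this
  obtain ⟨e, he⟩ := hX
  have h2 : bd a b e ∈ LinearMap.ker (fX X) := h1 (hF ▸ subset_span ⟨e, rfl⟩)
  rw [LinearMap.mem_ker] at h2
  exact fX_bd_ne.2 (mem_cut.1 he).2 h2

/-- Vertices identified modulo a subspace. -/
def st (U : Submodule (ZMod 2) (V → ZMod 2)) : Setoid V where
  r u v := (Pi.single u 1 + Pi.single v 1 : V → ZMod 2) ∈ U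
  iseqv := by
    have h2 : ∀ w : V → ZMod 2, w + w = 0 := fun w => by
      funext i; exact CharTwo.add_self_eq_zero _
    refine ⟨fun u => ?_, fun {u v} h => ?_, fun {u v w} h1 h2' => ?_⟩
    · rw [h2]; exact U.zero_mem
    · rw [add_comm]; exact h
    · have h3 := U.add_mem h1 h2'
      have h4 : (Pi.single u 1 + Pi.single v 1 : V → ZMod 2) + (Pi.single v 1 + Pi.single w 1) =
          Pi.single u 1 + Pi.single w 1 := by
        rw [add_assoc, ← add_assoc (Pi.single v 1) (Pi.single v 1), h2, zero_add]
      rwa [h4] at h3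

lemma card_le_quot (U : Submodule (ZMod 2) (V → ZMod 2)) :
    Fintype.card V ≤ Module.finrank (ZMod 2) U + Nat.card (Quotient (st U)) := by
  classical
  let Q := Quotient (st U)
  have : Fintype Q := Fintype.ofFinite Q
  let g : (Q → ZMod 2) →ₗ[ZMod 2] ((V → ZMod 2) ⧸ U) :=
    Fintype.linearCombination (ZMod 2) fun q : Q => U.mkQ (Pi.single q.out 1)
  have h2 : ∀ w : V → ZMod 2, w + w = 0 := fun w => by
    funext i; exact CharTwo.add_self_eq_zero _
  have hs : ∀ v : V, U.mkQ (Pi.single v 1) ∈ LinearMap.range g := by
    intro v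
    refine ⟨Pi.single (Quotient.mk (st U) v) 1, ?_⟩
    simp only [g]
    rw [Fintype.linearCombination_apply_single, one_smul]
    have h1 : (st U).r (Quotient.mk (st U) v).out v := Quotient.mk_out (s := st U) v
    have h3 : (Pi.single (Quotient.mk (st U) v).out 1 + Pi.single v 1 : V → ZMod 2) ∈ U := h1
    rw [← sub_eq_zero, ← map_sub, Submodule.mkQ_apply, Submodule.Quotient.mk_eq_zero]
    have h4 : ∀ x y : V → ZMod 2, x - y = x + y := fun x y => by
      rw [sub_eq_iff_eq_add, add_assoc, h2, add_zero]
    rw [h4]
    exact h3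
  have hsurj : Function.Surjective g := by
    rw [← LinearMap.range_eq_top, eq_top_iff]
    rintro x -
    obtain ⟨w, rfl⟩ := U.mkQ_surjective x
    have h3 : w = ∑ v, w v • (Pi.single v 1 : V → ZMod 2) := by
      funext i
      simp [Finset.sum_apply, Pi.single_apply]
    rw [h3, map_sum]
    refine sum_mem fun v _ => ?_
    rw [map_smul]
    exact smul_mem _ _ (hs v)
  have h3 : Module.finrank (ZMod 2) ((V → ZMod 2) ⧸ U) ≤ Fintype.card Q := by
    have := LinearMap.finrank_le_finrank_of_surjective hsurj
    rwa [Module.finrank_fintype_fun_eq_card] at this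
  have h4 := Submodule.finrank_quotient_add_finrank U
  rw [Module.finrank_fintype_fun_eq_card] at h4
  change _ ≤ _ + Nat.card Q
  rw [Nat.card_eq_fintype_card]
  omega

/-- **Tree packing**: a multigraph all of whose cuts have at least `2 h` edges contains `h`
pairwise disjoint edge sets, each independent and meeting every cut. -/
theorem trees {a b : E → V} {h κ : ℕ} (hκ : 2 * h ≤ κ)
    (hc : ∀ X : Finset V, X.Nonempty → X ≠ univ → κ ≤ (cut a b univ X).card) :
    ∃ F : Fin h → Finset E, (∀ i j, i ≠ j → Disjoint (F i) (F j)) ∧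
      (∀ i, (F i).card ≤ Fintype.card V) ∧
      (∀ i (X : Finset V), (cut a b univ X).Nonempty → (cut a b (F i) X).Nonempty) := by
  classical
  obtain ⟨F, h1, h2, h3⟩ := pack (K := ZMod 2) h (bd a b) fun R => by
    let U : Submodule (ZMod 2) (V → ZMod 2) := span (ZMod 2) (bd a b '' (R : Set E))
    change _ ≤ h * Module.finrank (ZMod 2) U + _
    let Q := Quotient (st U)
    have : Fintype Q := Fintype.ofFinite Q
    have hq := card_le_quot U
    change _ ≤ _ + Nat.card Q at hq
    rw [Nat.card_eq_fintype_card] at hq
    have hle : Module.finrank (ZMod 2) (span (ZMod 2) (Set.range (bd a b))) ≤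
        Fintype.card V := by
      have := Submodule.finrank_le (span (ZMod 2) (Set.range (bd a b)))
      rwa [Module.finrank_fintype_fun_eq_card] at this
    rcases Nat.lt_or_ge (Fintype.card Q) 2 with hQ | hQ
    · -- at most one class
      have hss : Subsingleton Q := Fintype.card_le_one_iff_subsingleton.1 (by omega)
      have : span (ZMod 2) (Set.range (bd a b)) ≤ U := by
        rw [span_le]
        rintro _ ⟨e, rfl⟩
        exact Quotient.exact (s := st U)
          (hss.elim (Quotient.mk (st U) (a e)) (Quotient.mk (st U) (b e)))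
      have h4 := Submodule.finrank_mono this
      exact (Nat.mul_le_mul_left h h4).trans (Nat.le_add_right _ _)
    · let A : Q → Finset V := fun q => univ.filter fun v => Quotient.mk (st U) v = q
      have hA : ∀ q, κ ≤ (cut a b (univ \ R) (A q)).card := by
        intro q
        have h4 : cut a b univ (A q) = cut a b (univ \ R) (A q) := by
          ext e
          rw [mem_cut, mem_cut]
          refine ⟨fun h5 => ⟨mem_sdiff.2 ⟨mem_univ _, fun h6 => h5.2 ?_⟩, h5.2⟩,
            fun h5 => ⟨mem_univ _, h5.2⟩⟩
          have h7 : bd a b e ∈ U := subset_span ⟨e, Finset.mem_coe.2 h6, rfl⟩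
          have h8 : Quotient.mk (st U) (a e) = Quotient.mk (st U) (b e) :=
            Quotient.sound (s := st U) h7
          simp only [A, mem_filter, mem_univ, true_and, h8]
        rw [← h4]
        obtain ⟨v, hv⟩ := Quotient.exists_rep q
        refine hc _ ⟨v, by simp only [A, mem_filter, mem_univ, true_and]; exact hv⟩ ?_
        intro h5
        obtain ⟨q', hq'⟩ : ∃ q' : Q, q' ≠ q := by
          have : Nontrivial Q := Fintype.one_lt_card_iff_nontrivial.1 (by omega)
          exact exists_ne q
        obtain ⟨v', hv'⟩ := Quotient.exists_rep q'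
        have h6 : v' ∈ A q := h5 ▸ mem_univ v'
        simp only [A, mem_filter, mem_univ, true_and] at h6
        exact hq' (hv'.symm.trans h6)
      have hsum : ∑ q, (cut a b (univ \ R) (A q)).card ≤ 2 * (univ \ R).card := by
        have h4 : ∀ q, (cut a b (univ \ R) (A q)).card =
            ∑ e ∈ univ \ R, if ¬ (a e ∈ A q ↔ b e ∈ A q) then 1 else 0 := by
          intro q; rw [cut, card_filter]
        rw [sum_congr rfl fun q _ => h4 q, sum_comm, mul_comm, ← smul_eq_mul, ← sum_const]
        refine sum_le_sum fun e _ => ?_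
        rw [← card_filter]
        calc _ ≤ ({Quotient.mk (st U) (a e), Quotient.mk (st U) (b e)} : Finset Q).card := by
              apply card_le_card
              intro q hq1
              simp only [mem_filter, mem_univ, true_and, A] at hq1
              simp only [mem_insert, mem_singleton]
              by_contra h5
              push Not at h5
              exact hq1 ⟨fun h6 => absurd h6.symm h5.1, fun h6 => absurd h6.symm h5.2⟩
          _ ≤ 2 := card_le_two
      have h5 : κ * Fintype.card Q ≤ 2 * (univ \ R).card := by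
        refine le_trans ?_ hsum
        rw [mul_comm, ← smul_eq_mul, ← card_univ, ← sum_const]
        exact sum_le_sum fun q _ => hA q
      have h6 : 2 * h * Fintype.card Q ≤ κ * Fintype.card Q := Nat.mul_le_mul_right _ hκ
      have h7 : h * Module.finrank (ZMod 2) (span (ZMod 2) (Set.range (bd a b))) ≤
          h * (Module.finrank (ZMod 2) U + Fintype.card Q) :=
        Nat.mul_le_mul_left h (hle.trans hq)
      rw [mul_add] at h7
      have h8 : 2 * (h * Fintype.card Q) ≤ 2 * (univ \ R).card := by
        rw [← mul_assoc]; exact h6.trans h5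
      omega
  refine ⟨F, h1, fun i => ?_, fun i X hX => cut_nonempty (h3 i) hX⟩
  have h5 := h2 i
  have h6 : (F i).card ≤ Module.finrank (ZMod 2) (V → ZMod 2) := by
    have := LinearIndependent.fintype_card_le_finrank h5
    simpa using this
  rwa [Module.finrank_fintype_fun_eq_card] at h6

end Pool.Agent.Lib.MP_d47134_co.Asy
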